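import Mathlib

/-!
# The height of a vector of integers
-/

set_option autoImplicit false

namespace Pool.Agent.LRP

/-- The height of a vector of integers: the largest absolute value of an entry. -/
def height {J : Type} [Fintype J] (a : J → ℤ) : ℕ := Finset.univ.sup fun x => (a x).natAbs

end Pool.Agent.LRP
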