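import Pool.Agent.Helper28.TC.NFin

/-!
# The short range with a power saving exceptional set
-/

set_option autoImplicit false

namespace Pool.Agent.LRP

open Finset
open Pool.Agent.Helper28.TC (Fam bx RM RM_nonneg xx PR IS_le_RM IS_xx PI_eq_PR AA AA_nonneg
  moment_RM term_bound sum_inv_sq)

/-- The factor of a level. -/
noncomputable def la (κ : ℝ) (j : ℕ) : ℝ := ((2 : ℝ) ^ j) ^ κ

lemma la_pos (κ : ℝ) (j : ℕ) : 0 < la κ j := by unfold la; positivity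

lemma one_le_la {κ : ℝ} (hκ : 0 ≤ κ) (j : ℕ) : 1 ≤ la κ j :=
  Real.one_le_rpow (one_le_pow₀ (by norm_num)) hκ

lemma la_mono {κ : ℝ} (hκ : 0 ≤ κ) {i j : ℕ} (h : i ≤ j) : la κ i ≤ la κ j :=
  Real.rpow_le_rpow (by positivity) (pow_le_pow_right₀ (by norm_num) h) hκ

lemma la_le {κ : ℝ} (hκ : 0 ≤ κ) {T : ℕ} (hT : 1 ≤ T) : la κ (Nat.log 2 T) ≤ (T : ℝ) ^ κ := by
  apply Real.rpow_le_rpow (by positivity) _ hκ
  exact_mod_cast Nat.pow_log_le_self 2 (by omega : T ≠ 0)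

lemma le_la {κ : ℝ} (hκ : 0 ≤ κ) (hκ1 : κ ≤ 1) {T : ℕ} : (T : ℝ) ^ κ ≤ 2 * la κ (Nat.log 2 T) := by
  have h1 : (T : ℝ) ≤ 2 * 2 ^ Nat.log 2 T := by
    have := (Nat.lt_pow_succ_log_self (b := 2) (by norm_num) T).le
    have h2 : (T : ℝ) ≤ 2 ^ (Nat.log 2 T + 1) := by exact_mod_cast this
    rw [pow_succ] at h2
    linarith
  calc (T : ℝ) ^ κ ≤ (2 * 2 ^ Nat.log 2 T) ^ κ := Real.rpow_le_rpow (Nat.cast_nonneg _) h1 hκ
    _ = 2 ^ κ * la κ (Nat.log 2 T) := by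
        rw [Real.mul_rpow (by norm_num) (by positivity)]
        rfl
    _ ≤ 2 * la κ (Nat.log 2 T) := by
        apply mul_le_mul_of_nonneg_right _ (la_pos _ _).le
        calc (2 : ℝ) ^ κ ≤ 2 ^ (1 : ℝ) := Real.rpow_le_rpow_of_exponent_le (by norm_num) hκ1
          _ = 2 := Real.rpow_one 2

/-- The sum over the levels. -/
lemma sum_levels {κ : ℝ} (hκ : 0 ≤ κ) (hκ1 : κ ≤ 1) {T₀ j1 : ℕ} (hT₀ : 2 ≤ T₀) {E : ℝ} (hE : 0 ≤ E)
    {f : ℕ → ℝ} (hf : ∀ j ∈ Icc (Nat.log 2 T₀) j1, f j ≤ E * (1 / (j : ℝ) ^ 2) / la κ j) :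
    ∑ j ∈ Icc (Nat.log 2 T₀) j1, f j ≤ 8 * E / ((T₀ : ℝ) ^ κ * Real.log T₀) := by
  have hT0 : (2 : ℝ) ≤ T₀ := by exact_mod_cast hT₀
  have hlT : 0 < Real.log T₀ := Real.log_pos (by linarith)
  have hTκ : 0 < (T₀ : ℝ) ^ κ := Real.rpow_pos_of_pos (by linarith) _
  obtain ⟨j0, hj0⟩ : ∃ j0, j0 = Nat.log 2 T₀ := ⟨_, rfl⟩
  have hj1 : 1 ≤ j0 := by rw [hj0]; exact Nat.log_pos (by norm_num) hT₀
  rw [← hj0] at hf ⊢
  have h1 : ∀ j ∈ Icc j0 j1, f j ≤ 2 * E / (T₀ : ℝ) ^ κ * (1 / (j : ℝ) ^ 2) := by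
    intro j hj
    refine (hf j hj).trans ?_
    have h2 : (T₀ : ℝ) ^ κ ≤ 2 * la κ j := by
      refine (le_la hκ hκ1).trans ?_
      rw [← hj0]
      exact mul_le_mul_of_nonneg_left (la_mono hκ (Finset.mem_Icc.1 hj).1) (by norm_num)
    have h3 := la_pos κ j
    have h4 : 1 / la κ j ≤ 2 / (T₀ : ℝ) ^ κ := by
      rw [div_le_div_iff₀ h3 hTκ]
      linarith
    have h5 : 0 ≤ E * (1 / (j : ℝ) ^ 2) := by positivity
    calc E * (1 / (j : ℝ) ^ 2) / la κ j = E * (1 / (j : ℝ) ^ 2) * (1 / la κ j) := by ring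
      _ ≤ E * (1 / (j : ℝ) ^ 2) * (2 / (T₀ : ℝ) ^ κ) := mul_le_mul_of_nonneg_left h4 h5
      _ = _ := by ring
  refine (Finset.sum_le_sum h1).trans ?_
  rw [← Finset.mul_sum]
  have h2 := sum_inv_sq j0 j1 hj1
  have h5 : (2 : ℝ) / j0 ≤ 4 / Real.log T₀ := by
    have hj0' : (1 : ℝ) ≤ j0 := by exact_mod_cast hj1
    rw [div_le_div_iff₀ (by linarith) hlT]
    have h6 : Real.log T₀ ≤ ((j0 : ℝ) + 1) * Real.log 2 := by
      have h7 : (T₀ : ℝ) ≤ 2 ^ (j0 + 1) := by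
        have := (Nat.lt_pow_succ_log_self (b := 2) (by norm_num) T₀).le
        rw [← hj0] at this
        exact_mod_cast this
      have h8 := Real.log_le_log (by linarith) h7
      rw [Real.log_pow] at h8
      push_cast at h8
      exact h8
    have h7 : Real.log 2 ≤ 1 := by
      have := Real.log_two_lt_d9; linarith
    nlinarith
  calc 2 * E / (T₀ : ℝ) ^ κ * ∑ j ∈ Icc j0 j1, 1 / (j : ℝ) ^ 2 ≤ 2 * E / (T₀ : ℝ) ^ κ * (4 / Real.log T₀) :=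
        mul_le_mul_of_nonneg_left (h2.trans h5) (by positivity)
    _ = _ := by
        field_simp
        ring

section Abs

variable {J : Type} [Fintype J] [DecidableEq J] {C D : ℝ} (F : Fam J C D)

open Classical in
lemma bad_levelK (K B : ℕ) (hK : 1 ≤ K) (hKB : K ^ 2 ≤ B) {κ : ℝ} {j : ℕ} (hj : 1 ≤ j) :
    (((bx J B).filter fun a =>
      la κ j ^ 2 * ((2 : ℝ) ^ j * ((j : ℝ) * Real.log 2) ^ 6) < RM (xx F K a) (j + 1) 0).card : ℝ) ≤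
      AA J B * (D + 4 * C ^ 2) * (72 / Real.log 2 ^ 6) * (1 / (j : ℝ) ^ 2) / la κ j ^ 2 := by
  have hl : 0 < Real.log 2 := Real.log_pos (by norm_num)
  have hla := la_pos κ j
  have hD : 0 ≤ AA J B * (D + 4 * C ^ 2) := by
    have := AA_nonneg J B
    have hC1 := F.hC
    have hD1 := F.hD
    positivity
  rw [le_div_iff₀ (by positivity)]
  apply term_bound hD hl hj
  have h1 := moment_RM F K B hK hKB (j + 1)
  have h2 : (((bx J B).filter fun a =>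
      la κ j ^ 2 * ((2 : ℝ) ^ j * ((j : ℝ) * Real.log 2) ^ 6) < RM (xx F K a) (j + 1) 0).card : ℝ) *
      (la κ j ^ 2 * ((2 : ℝ) ^ j * ((j : ℝ) * Real.log 2) ^ 6)) ≤
        ∑ a ∈ bx J B, RM (xx F K a) (j + 1) 0 := by
    rw [← nsmul_eq_mul, ← Finset.sum_const]
    refine (Finset.sum_le_sum fun a ha => (Finset.mem_filter.1 ha).2.le).trans ?_
    exact Finset.sum_le_sum_of_subset_of_nonneg (Finset.filter_subset _ _)
      fun a _ _ => RM_nonneg _ _ _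
  refine le_trans (le_of_eq ?_) ((h2.trans h1).trans (le_of_eq ?_))
  · ring
  · ring

lemma exceedK {κ : ℝ} (hκ : 0 ≤ κ) {K T : ℕ} (hT : 2 ≤ T) (hTK : T ≤ K) {a : J → ℤ}
    (h : (T : ℝ) ^ κ * (Real.log T ^ 3 / Real.sqrt T) <
      |(∑ p ∈ PR T, Real.log p * F.tm p a) / T|) :
    la κ (Nat.log 2 T) ^ 2 * ((2 : ℝ) ^ (Nat.log 2 T) * (((Nat.log 2 T : ℕ) : ℝ) * Real.log 2) ^ 6) <
      RM (xx F K a) (Nat.log 2 T + 1) 0 := by
  have hT0 : (0 : ℝ) < T := by exact_mod_cast (by omega : 0 < T)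
  have hT1 : (1 : ℝ) ≤ T := by exact_mod_cast (by omega : 1 ≤ T)
  have h1 : T + 1 ≤ 2 ^ (Nat.log 2 T + 1) := Nat.lt_pow_succ_log_self (by norm_num) T
  have h2 : 2 ^ Nat.log 2 T ≤ T := Nat.pow_log_le_self 2 (by omega)
  have h3 := IS_le_RM (xx F K a) (Nat.log 2 T + 1) 0 (T + 1) h1
  rw [IS_xx, PI_eq_PR hTK] at h3
  refine lt_of_lt_of_le ?_ h3
  rw [abs_div, abs_of_pos hT0] at h
  set X := ∑ p ∈ PR T, Real.log p * F.tm p a with hX
  have hs : 0 < Real.sqrt T := Real.sqrt_pos.2 hT0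
  have hlog : 0 ≤ Real.log T := Real.log_nonneg hT1
  have hκ0 : 0 < (T : ℝ) ^ κ := Real.rpow_pos_of_pos hT0 _
  rw [← mul_div_assoc, div_lt_div_iff₀ hs hT0] at h
  have h5 : ((T : ℝ) ^ κ * Real.log T ^ 3 * T) ^ 2 < (|X| * Real.sqrt T) ^ 2 :=
    pow_lt_pow_left₀ h (by positivity) (by norm_num)
  rw [mul_pow (|X|), sq_abs, Real.sq_sqrt hT0.le] at h5
  have h6 : ((T : ℝ) ^ κ) ^ 2 * ((T : ℝ) * Real.log T ^ 6) < X ^ 2 := by
    have : ((T : ℝ) ^ κ * Real.log T ^ 3 * T) ^ 2 =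
        ((T : ℝ) ^ κ) ^ 2 * ((T : ℝ) * Real.log T ^ 6) * T := by ring
    rw [this] at h5
    exact lt_of_mul_lt_mul_right h5 hT0.le
  refine lt_of_le_of_lt ?_ h6
  have h7 : ((Nat.log 2 T : ℕ) : ℝ) * Real.log 2 ≤ Real.log T := by
    rw [← Real.log_pow]
    exact Real.log_le_log (by positivity) (by exact_mod_cast h2)
  have h8 : (0 : ℝ) ≤ ((Nat.log 2 T : ℕ) : ℝ) * Real.log 2 :=
    mul_nonneg (Nat.cast_nonneg _) (Real.log_nonneg (by norm_num))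
  have h9 := la_le hκ (by omega : 1 ≤ T)
  refine mul_le_mul (pow_le_pow_left₀ (la_pos _ _).le h9 2) ?_ (by positivity) (by positivity)
  exact mul_le_mul (by exact_mod_cast h2) (pow_le_pow_left₀ h8 h7 6) (pow_nonneg h8 6) hT0.le

/-- The constant. -/
noncomputable def CK (J : Type) [Fintype J] (C D : ℝ) : ℝ :=
  8 * (8 ^ Fintype.card J * (D + 4 * C ^ 2) * (72 / Real.log 2 ^ 6))

include F in
lemma CK_nonneg : 0 ≤ CK J C D := by
  have hC1 := F.hC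
  have hD1 := F.hD
  have hl : 0 < Real.log 2 := Real.log_pos (by norm_num)
  unfold CK
  positivity

open Classical in
theorem countK {κ : ℝ} (hκ : 0 ≤ κ) (hκ1 : κ ≤ 1) (T₀ B : ℕ) (hT₀ : 2 ≤ T₀) :
    (((bx J B).filter fun a => ∃ T : ℕ, T₀ ≤ T ∧ T ^ 2 ≤ B ∧
      (T : ℝ) ^ κ * (Real.log T ^ 3 / Real.sqrt T) <
        |(∑ p ∈ PR T, Real.log p * F.tm p a) / T|).card : ℝ) ≤
      CK J C D / ((T₀ : ℝ) ^ κ * Real.log T₀) * (bx J B).card := by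
  have hl : 0 < Real.log 2 := Real.log_pos (by norm_num)
  have hT0 : (2 : ℝ) ≤ T₀ := by exact_mod_cast hT₀
  have hlT : 0 < Real.log T₀ := Real.log_pos (by linarith)
  have hTκ : 0 < (T₀ : ℝ) ^ κ := Real.rpow_pos_of_pos (by linarith) _
  have hC1 := F.hC
  have hD1 := F.hD
  have hCC := CK_nonneg F
  by_cases hB : B = 0
  · have : ((bx J B).filter fun a => ∃ T : ℕ, T₀ ≤ T ∧ T ^ 2 ≤ B ∧
      (T : ℝ) ^ κ * (Real.log T ^ 3 / Real.sqrt T) <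
        |(∑ p ∈ PR T, Real.log p * F.tm p a) / T|) = ∅ := by
      rw [Finset.filter_eq_empty_iff]
      rintro a _ ⟨T, h1, h2, _⟩
      rw [hB] at h2
      have : T ^ 2 ≥ 2 ^ 2 := Nat.pow_le_pow_left (hT₀.trans h1) 2
      omega
    rw [this, Finset.card_empty, Nat.cast_zero]
    positivity
  obtain ⟨K, hK⟩ : ∃ K, K = Nat.sqrt B := ⟨_, rfl⟩
  have hK1 : 1 ≤ K := by rw [hK, Nat.le_sqrt']; omega
  have hKB : K ^ 2 ≤ B := by rw [hK]; exact Nat.sqrt_le' B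
  have hj1 : 1 ≤ Nat.log 2 T₀ := Nat.log_pos (by norm_num) hT₀
  set E : ℝ := AA J B * (D + 4 * C ^ 2) * (72 / Real.log 2 ^ 6) with hE
  have hE0 : 0 ≤ E := by
    have := AA_nonneg J B
    positivity
  have hsub : ((bx J B).filter fun a => ∃ T : ℕ, T₀ ≤ T ∧ T ^ 2 ≤ B ∧
      (T : ℝ) ^ κ * (Real.log T ^ 3 / Real.sqrt T) <
        |(∑ p ∈ PR T, Real.log p * F.tm p a) / T|) ⊆
      (Icc (Nat.log 2 T₀) (Nat.log 2 K)).biUnion fun j => (bx J B).filter fun a =>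
        la κ j ^ 2 * ((2 : ℝ) ^ j * ((j : ℝ) * Real.log 2) ^ 6) < RM (xx F K a) (j + 1) 0 := by
    intro a ha
    obtain ⟨ha1, T, h1, h2, h3⟩ := Finset.mem_filter.1 ha
    have hTK : T ≤ K := by rw [hK, Nat.le_sqrt']; exact h2
    rw [Finset.mem_biUnion]
    refine ⟨Nat.log 2 T, ?_, ?_⟩
    · rw [Finset.mem_Icc]
      exact ⟨Nat.log_mono_right h1, Nat.log_mono_right hTK⟩
    · rw [Finset.mem_filter]
      exact ⟨ha1, exceedK F hκ (hT₀.trans h1) hTK h3⟩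
  have h2 := (Finset.card_le_card hsub).trans Finset.card_biUnion_le
  have h3 : (((bx J B).filter fun a => ∃ T : ℕ, T₀ ≤ T ∧ T ^ 2 ≤ B ∧
      (T : ℝ) ^ κ * (Real.log T ^ 3 / Real.sqrt T) <
        |(∑ p ∈ PR T, Real.log p * F.tm p a) / T|).card : ℝ) ≤
        ∑ j ∈ Icc (Nat.log 2 T₀) (Nat.log 2 K), (((bx J B).filter fun a =>
        la κ j ^ 2 * ((2 : ℝ) ^ j * ((j : ℝ) * Real.log 2) ^ 6) <
          RM (xx F K a) (j + 1) 0).card : ℝ) := by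
    exact_mod_cast h2
  refine h3.trans ((sum_levels hκ hκ1 hT₀ hE0 fun j hj => ?_).trans (le_of_eq ?_))
  · refine (bad_levelK F K B hK1 hKB (κ := κ) (hj1.trans (Finset.mem_Icc.1 hj).1)).trans ?_
    have h4 := one_le_la hκ j
    have h5 : 0 ≤ E * (1 / (j : ℝ) ^ 2) := by positivity
    apply div_le_div_of_nonneg_left h5 (la_pos _ _)
    nlinarith
  · rw [hE]
    unfold CK AA
    field_simp

end Abs

section Average

open Pool.Agent.Helper28.TC (Bs rk CC C1)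
open Pool.Agent.Helper28.TC.N (Idx box pol average primeAverage DB average_le famN)

variable {R : Type} [CommRing R] {k d : ℕ} {g : Fin k → ℕ}

/-- The constant. -/
noncomputable def CUK (g : Fin k → ℕ) (d : ℕ) : ℝ :=
  Fintype.card (Bs k) * CK (Idx g × Fin d) (d * C1 g) ((d : ℝ) ^ 2 * 104)

lemma CUK_nonneg : 0 ≤ CUK g d := by
  unfold CUK CK
  positivity

open Classical in
/-- The short range. -/
theorem mainK (b : Module.Basis (Fin d) ℤ R) (hg : ∀ i, 1 ≤ g i)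
    {w : ∀ p : ℕ, (R →+* ZMod p) → ℝ} (hw : ∀ p φ, |w p φ| ≤ 1) {κ : ℝ} (hκ : 0 ≤ κ) (hκ1 : κ ≤ 1)
    (T₀ B : ℕ) (hT₀ : 2 ≤ T₀) :
    (((box g d B).filter fun a => ∃ T : ℕ, T₀ ≤ T ∧ T ^ 2 ≤ B ∧ ∃ m n : Fin k → ℕ,
      (∑ i, ((m i : ℝ) + n i)) ^ 2 * ((T : ℝ) ^ κ * (Real.log T ^ 3 / Real.sqrt T)) <
        |average w T g m n (pol b a) - rk m n * primeAverage w T|).card : ℝ) ≤
      CUK g d / ((T₀ : ℝ) ^ κ * Real.log T₀) * (box g d B).card := by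
  have hsub : ((box g d B).filter fun a => ∃ T : ℕ, T₀ ≤ T ∧ T ^ 2 ≤ B ∧ ∃ m n : Fin k → ℕ,
      (∑ i, ((m i : ℝ) + n i)) ^ 2 * ((T : ℝ) ^ κ * (Real.log T ^ 3 / Real.sqrt T)) <
        |average w T g m n (pol b a) - rk m n * primeAverage w T|) ⊆
      (univ : Finset (Bs k)).biUnion fun β => (bx (Idx g × Fin d) B).filter fun a =>
        ∃ T : ℕ, T₀ ≤ T ∧ T ^ 2 ≤ B ∧ (T : ℝ) ^ κ * (Real.log T ^ 3 / Real.sqrt T) <
          |(∑ p ∈ PR T, Real.log p * (famN b hw hg β).tm p a) / T| := by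
    intro a ha
    obtain ⟨ha1, T, h1, h2, m, n, h3⟩ := Finset.mem_filter.1 ha
    rw [Finset.mem_biUnion]
    by_contra hcon
    push Not at hcon
    have h4 : ∀ β, |DB b w T a β| ≤ (T : ℝ) ^ κ * (Real.log T ^ 3 / Real.sqrt T) := by
      intro β
      by_contra h5
      push Not at h5
      apply hcon β (Finset.mem_univ _)
      rw [Finset.mem_filter]
      exact ⟨ha1, T, h1, h2, h5⟩
    exact absurd h3 (not_lt.2 (average_le m n b h4))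
  have h1 : (((box g d B).filter fun a => ∃ T : ℕ, T₀ ≤ T ∧ T ^ 2 ≤ B ∧ ∃ m n : Fin k → ℕ,
      (∑ i, ((m i : ℝ) + n i)) ^ 2 * ((T : ℝ) ^ κ * (Real.log T ^ 3 / Real.sqrt T)) <
        |average w T g m n (pol b a) - rk m n * primeAverage w T|).card : ℝ) ≤
      ∑ β : Bs k, (((bx (Idx g × Fin d) B).filter fun a =>
        ∃ T : ℕ, T₀ ≤ T ∧ T ^ 2 ≤ B ∧ (T : ℝ) ^ κ * (Real.log T ^ 3 / Real.sqrt T) <
          |(∑ p ∈ PR T, Real.log p * (famN b hw hg β).tm p a) / T|).card : ℝ) := by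
    exact_mod_cast (Finset.card_le_card hsub).trans Finset.card_biUnion_le
  refine h1.trans ((Finset.sum_le_sum fun β _ => countK (famN b hw hg β) hκ hκ1 T₀ B hT₀).trans ?_)
  rw [Finset.sum_const, Finset.card_univ, nsmul_eq_mul]
  unfold CUK
  apply le_of_eq
  have : box g d B = bx (Idx g × Fin d) B := rfl
  rw [this]
  ring

end Average

end Pool.Agent.LRP
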