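import Pool.Agent.LRP.Stepanov
import Pool.Agent.Helper28.TC.NFin

/-!
# The families are bounded
-/

set_option autoImplicit false

namespace Pool.Agent.LRP

open Polynomial Finset
open Pool.Agent.Helper28.TC (Fam Bs rB rB_abs XB XB_none XB_inl XB_inr SF ZF WF cc qc qc_abs LP blk
  pl coeff_pl ev evH GG BA ringChar_ne ringCharK sum_optionK cardK C1)
open Pool.Agent.Helper28.TC.N (Idx f1 ffN famN hom_finite card_hom_le redc)

/-- The constant of Stepanov's bound. -/
noncomputable def CS (m : ℕ) : ℝ := (stepanov m).choose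

lemma CS_nonneg (m : ℕ) : 0 ≤ CS m := (stepanov m).choose_spec.1

lemma qc_sum_le (m : ℕ) (K : Type) [Field K] [Fintype K] (hK : ringChar K ≠ 2) (f : K[X])
    (h1 : Squarefree f) (h2 : 1 ≤ f.natDegree) (h3 : f.natDegree ≤ m) :
    |∑ x : K, qc K (f.eval x)| ≤ CS m * Real.sqrt (Fintype.card K) := by
  have h0 := (stepanov m).choose_spec.2
  have h := @h0 K _ _ (Classical.decEq K) hK f h1 h2 h3
  have h4 : ∑ x : K, qc K (f.eval x) =
      ((∑ x : K, @quadraticChar K _ _ (Classical.decEq K) (f.eval x) : ℤ) : ℝ) := by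
    push_cast
    rfl
  rw [h4]
  exact h

section Points

variable {p : ℕ} [Fact p.Prime] {k : ℕ} {g : Fin k → ℕ} (K : Type) [Field K] [Algebra (ZMod p) K]

lemma LP_eval (i : Fin k) (x : K) (u : Idx g → ZMod p) :
    LP K i (some x) u = ((pl (blk i u)).map (algebraMap (ZMod p) K)).eval x := by
  unfold pl
  rw [Polynomial.map_sum, eval_finsetSum]
  change ∑ j, algebraMap (ZMod p) K (blk i u j) * x ^ (j : ℕ) = _
  refine Finset.sum_congr rfl fun j _ => ?_
  rw [Polynomial.map_mul, Polynomial.map_C, Polynomial.map_pow, Polynomial.map_X, eval_mul, eval_C,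
    eval_pow, eval_X]

lemma natDegree_pl_le {D : ℕ} (w : Fin (D + 1) → ZMod p) : (pl w).natDegree ≤ D := by
  rw [natDegree_le_iff_coeff_eq_zero]
  intro n hn
  rw [coeff_pl, dif_neg (by omega)]

variable [Fintype K]

lemma points_le (hp : p ≠ 2) {u : Idx g → ZMod p} (hu : u ∉ BA p g) (i : Fin k) :
    |∑ P : Option K, qc K (LP K i P u)| ≤ CS (2 * g i + 2) * Real.sqrt (Fintype.card K) + 1 := by
  classical
  have hu' : Squarefree (pl (blk i u)) ∧ 2 * g i + 1 ≤ (pl (blk i u)).natDegree := by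
    unfold BA at hu
    rw [Finset.mem_filter, not_and_not_right] at hu
    exact hu (Finset.mem_univ _) i
  have h1 : ((pl (blk i u)).map (algebraMap (ZMod p) K)).natDegree = (pl (blk i u)).natDegree :=
    natDegree_map _
  have h2 : Squarefree ((pl (blk i u)).map (algebraMap (ZMod p) K)) := by
    have h3 : (pl (blk i u)).Separable := PerfectField.separable_iff_squarefree.2 hu'.1
    exact (h3.map (f := algebraMap (ZMod p) K)).squarefree
  have h4 := qc_sum_le (2 * g i + 2) K (ringCharK K hp) _ h2 (by rw [h1]; omega)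
    (by rw [h1]; exact natDegree_pl_le _)
  rw [Fintype.sum_option]
  have h5 := abs_add_le (qc K (LP K i none u)) (∑ x : K, qc K (LP K i (some x) u))
  have h6 := qc_abs (LP K i none u)
  have h7 : ∑ x : K, qc K (LP K i (some x) u) =
      ∑ x : K, qc K (((pl (blk i u)).map (algebraMap (ZMod p) K)).eval x) :=
    Finset.sum_congr rfl fun x _ => by rw [LP_eval]
  rw [h7] at h5 ⊢
  linarith

end Points

section Bound

variable {k : ℕ}

/-- The sum of the constants. -/
noncomputable def SS (g : Fin k → ℕ) : ℝ := ∑ i, (CS (2 * g i + 2) + 1)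

lemma SS_nonneg (g : Fin k → ℕ) : 0 ≤ SS g :=
  Finset.sum_nonneg fun i _ => by have := CS_nonneg (2 * g i + 2); linarith

lemma le_SS (g : Fin k → ℕ) (i : Fin k) : CS (2 * g i + 2) + 1 ≤ SS g :=
  Finset.single_le_sum (f := fun i => CS (2 * g i + 2) + 1)
    (fun i _ => by have := CS_nonneg (2 * g i + 2); linarith) (Finset.mem_univ i)

variable {g : Fin k → ℕ} {p : ℕ} [Fact p.Prime]

lemma SF_le (hp : p ≠ 2) {u : Idx g → ZMod p} (hu : u ∉ BA p g) (i : Fin k) :
    |SF i u| ≤ SS g * Real.sqrt p := by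
  have h := points_le (ZMod p) hp hu i
  rw [ZMod.card] at h
  have hs : 1 ≤ Real.sqrt p := Real.one_le_sqrt.2 (by exact_mod_cast (Fact.out : p.Prime).one_le)
  have h2 := le_SS g i
  have h3 : |SF i u| ≤ CS (2 * g i + 2) * Real.sqrt p + 1 := h
  nlinarith

lemma ZW_le (hp : p ≠ 2) [Fintype (GaloisField p 2)] {u : Idx g → ZMod p} (hu : u ∉ BA p g)
    (i : Fin k) : |ZF i u + WF (GaloisField p 2) i u| ≤ SS g * p := by
  have h := points_le (GaloisField p 2) hp hu i
  have hK : Fintype.card (GaloisField p 2) = p ^ 2 := by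
    rw [Fintype.card_eq_nat_card]
    exact GaloisField.card p 2 (by norm_num)
  rw [sum_optionK (GaloisField p 2) hp hK, hK] at h
  push_cast at h
  rw [Real.sqrt_sq (Nat.cast_nonneg p)] at h
  have hp1 : (1 : ℝ) ≤ p := by exact_mod_cast (Fact.out : p.Prime).one_le
  have h2 := le_SS g i
  nlinarith

lemma XB_le (hp : p ≠ 2) [Fintype (GaloisField p 2)] {u : Idx g → ZMod p} (hu : u ∉ BA p g)
    (β : Bs k) : |XB (GaloisField p 2) β u| ≤ 2 + 2 * SS g + 2 * SS g ^ 2 := by
  have hS := SS_nonneg g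
  have hp0 : (0 : ℝ) < p := by exact_mod_cast (Fact.out : p.Prime).pos
  rcases β with _ | i | ⟨i, j⟩
  · rw [XB_none, abs_of_pos (by norm_num)]
    nlinarith [sq_nonneg (SS g)]
  · rw [XB_inl, abs_neg, abs_div, abs_of_pos hp0, abs_mul, abs_of_pos (by norm_num : (0 : ℝ) < 2),
      div_le_iff₀ hp0]
    have h := ZW_le hp hu i
    nlinarith [mul_nonneg (sq_nonneg (SS g)) hp0.le]
  · rw [XB_inr, abs_div, abs_of_pos hp0, abs_mul, abs_of_pos (by norm_num : (0 : ℝ) < 2),
      div_le_iff₀ hp0, abs_mul]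
    have h1 := SF_le hp hu i
    have h2 := SF_le hp hu j
    have h3 : |SF i u| * |SF j u| ≤ (SS g * Real.sqrt p) * (SS g * Real.sqrt p) :=
      mul_le_mul h1 h2 (abs_nonneg _) (mul_nonneg hS (Real.sqrt_nonneg _))
    have h4 : (SS g * Real.sqrt p) * (SS g * Real.sqrt p) = SS g ^ 2 * p := by
      have := Real.mul_self_sqrt hp0.le
      calc _ = SS g ^ 2 * (Real.sqrt p * Real.sqrt p) := by ring
        _ = _ := by rw [this]
    rw [h4] at h3
    nlinarith [mul_nonneg hS hp0.le]

lemma f1_le (β : Bs k) (u : Idx g → ZMod p) : |f1 β p u| ≤ 4 + 2 * SS g + 2 * SS g ^ 2 := by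
  classical
  let _ : Fintype (GaloisField p 2) := Fintype.ofFinite _
  have hS := SS_nonneg g
  have hr := rB_abs β
  unfold f1 GG
  split_ifs with h
  · have h1 := XB_le (g := g) h.1 h.2 β
    have h2 := abs_sub (XB (GaloisField p 2) β u) (rB β)
    linarith
  · rw [abs_neg]
    nlinarith [sq_nonneg (SS g)]

/-- The bound. -/
noncomputable def LF (g : Fin k → ℕ) (d : ℕ) : ℝ := d * (4 + 2 * SS g + 2 * SS g ^ 2)

lemma LF_nonneg (g : Fin k → ℕ) (d : ℕ) : 0 ≤ LF g d := by
  have hS := SS_nonneg g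
  unfold LF
  positivity

/-- The functions modulo `p` are bounded. -/
theorem ffN_le {R : Type} [CommRing R] {d : ℕ} (b : Module.Basis (Fin d) ℤ R)
    {w : ∀ p : ℕ, (R →+* ZMod p) → ℝ} (hw : ∀ p φ, |w p φ| ≤ 1) (β : Bs k)
    (u : Idx g × Fin d → ZMod p) : |ffN b w β p u| ≤ LF g d := by
  have hfin : Finite (R →+* ZMod p) := hom_finite b
  have := Fintype.ofFinite (R →+* ZMod p)
  have hcard : (Fintype.card (R →+* ZMod p) : ℝ) ≤ d := by exact_mod_cast card_hom_le b
  have hS := SS_nonneg g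
  unfold ffN
  rw [dif_pos (Fact.out : p.Prime), finsum_eq_sum_of_fintype]
  refine (Finset.abs_sum_le_sum_abs _ _).trans ?_
  calc ∑ φ : R →+* ZMod p, |w p φ * f1 β p (redc (fun l => φ (b l)) u)| ≤
      ∑ _φ : R →+* ZMod p, (4 + 2 * SS g + 2 * SS g ^ 2) := by
        refine Finset.sum_le_sum fun φ _ => ?_
        rw [abs_mul]
        calc |w p φ| * |f1 β p (redc (fun l => φ (b l)) u)| ≤ 1 * (4 + 2 * SS g + 2 * SS g ^ 2) :=
              mul_le_mul (hw p φ) (f1_le β _) (abs_nonneg _) (by norm_num)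
          _ = _ := one_mul _
    _ = Fintype.card (R →+* ZMod p) * (4 + 2 * SS g + 2 * SS g ^ 2) := by
        rw [Finset.sum_const, Finset.card_univ, nsmul_eq_mul]
    _ ≤ _ := by
        unfold LF
        exact mul_le_mul_of_nonneg_right hcard (by positivity)

end Bound

end Pool.Agent.LRP
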