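import Pool.Agent.Helper25.FM.Dev
import Pool.Agent.LRP.Bnd
import Pool.Agent.LRP.AbsK

/-!
# The low range: a power saving error and a power saving exceptional set
-/

set_option autoImplicit false

namespace Pool.Agent.LRP

open Finset
open Pool.Agent.Helper29.TT (PRI boxJ card_boxJ)
open Pool.Agent.Helper25.FM (FamB dev1 pow_small)
open Pool.Agent.Helper28.TC (Fam bx PR)

section Dev

variable {J : Type} [Fintype J] [DecidableEq J] {t : ℕ → (J → ℤ) → ℝ} {L : ℝ}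

omit [Fintype J] [DecidableEq J] in
lemma two_le_T {T : ℕ} {a : J → ℤ} {δ : ℝ}
    (h : (T : ℝ) ^ (-δ) < |(∑ p ∈ PRI T, Real.log p * t p a) / T|) : 2 ≤ T := by
  by_contra hT
  have h1 : PRI T = ∅ := by
    unfold PRI
    rw [Finset.filter_eq_empty_iff]
    intro p hp hpp
    have := (Finset.mem_Icc.1 hp).2
    have := hpp.two_le
    omega
  rw [h1, Finset.sum_empty, zero_div, abs_zero] at h
  have h2 : 0 ≤ (T : ℝ) ^ (-δ) := Real.rpow_nonneg (Nat.cast_nonneg _) _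
  linarith

/-- The base of the power is small. -/
lemma base_K {T B k : ℕ} {θ κ α : ℝ} (hθ : 0 < θ) (hT : 2 ≤ T) (hα : α + 2 * κ = 1 - θ / 2)
    (hTB : T ^ (2 * k) ≤ B) (h1 : Real.log B ≤ (T : ℝ) ^ α)
    (h2 : 18 * (L ^ 2 + 1) / θ ≤ (T : ℝ) ^ (θ / 6)) :
    6 * k * (L ^ 2 + 1) * Real.log T ^ 2 / (((T : ℝ) ^ (-κ)) ^ 2 * T) ≤ (T : ℝ) ^ (-(θ / 6)) := by
  have hT0 : (0 : ℝ) < T := by exact_mod_cast (by omega : 0 < T)
  have hlT : 0 < Real.log T := Real.log_pos (by exact_mod_cast (by omega : 1 < T))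
  have h3 : 2 * k * Real.log T ≤ Real.log B := by
    have h4 : Real.log ((T : ℝ) ^ (2 * k)) ≤ Real.log B :=
      Real.log_le_log (by positivity) (by exact_mod_cast hTB)
    rw [Real.log_pow] at h4
    push_cast at h4
    exact h4
  have h5 : Real.log T ≤ (T : ℝ) ^ (θ / 6) / (θ / 6) := Real.log_le_rpow_div hT0.le (by positivity)
  have e1 : 6 * k * (L ^ 2 + 1) * Real.log T ^ 2 ≤
      3 * (L ^ 2 + 1) * ((T : ℝ) ^ α) * ((T : ℝ) ^ (θ / 6) / (θ / 6)) := by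
    calc 6 * k * (L ^ 2 + 1) * Real.log T ^ 2 = 3 * (L ^ 2 + 1) * (2 * k * Real.log T) * Real.log T := by ring
      _ ≤ 3 * (L ^ 2 + 1) * ((T : ℝ) ^ α) * ((T : ℝ) ^ (θ / 6) / (θ / 6)) := by
        apply mul_le_mul _ h5 hlT.le (by positivity)
        exact mul_le_mul_of_nonneg_left (h3.trans h1) (by positivity)
  rw [div_le_iff₀ (by positivity)]
  refine e1.trans ?_
  have e2 : 3 * (L ^ 2 + 1) * ((T : ℝ) ^ α) * ((T : ℝ) ^ (θ / 6) / (θ / 6)) =
      18 * (L ^ 2 + 1) / θ * (T : ℝ) ^ (α + θ / 6) := by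
    rw [Real.rpow_add hT0]
    field_simp
    ring
  have e3 : (T : ℝ) ^ (-(θ / 6)) * (((T : ℝ) ^ (-κ)) ^ 2 * T) = (T : ℝ) ^ (θ / 6) * (T : ℝ) ^ (α + θ / 6) := by
    have h6 : ((T : ℝ) ^ (-κ)) ^ 2 * T = (T : ℝ) ^ (1 - 2 * κ) := by
      rw [← Real.rpow_natCast, ← Real.rpow_mul hT0.le]
      nth_rw 2 [← Real.rpow_one (T : ℝ)]
      rw [← Real.rpow_add hT0]
      congr 1
      push_cast
      ring
    rw [h6, ← Real.rpow_add hT0, ← Real.rpow_add hT0]
    congr 1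
    linarith
  rw [e2, e3]
  exact mul_le_mul_of_nonneg_right h2 (by positivity)

open Classical in
/-- The sum over the small `T`. -/
lemma small_K (ht : FamB t L) {B : ℕ} (hB : 2 ≤ B) {θ κ α : ℝ} (hθ : 0 < θ) (hθ1 : θ ≤ 1)
    (hα : α + 2 * κ = 1 - θ / 2) :
    (((boxJ J B).filter fun a => ∃ T : ℕ, (T : ℝ) ≤ (B : ℝ) ^ (θ / 24) ∧
      Real.log B ≤ (T : ℝ) ^ α ∧ 18 * (L ^ 2 + 1) / θ ≤ (T : ℝ) ^ (θ / 6) ∧
      (T : ℝ) ^ (-κ) < |(∑ p ∈ PRI T, Real.log p * t p a) / T|).card : ℝ) ≤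
      8 ^ Fintype.card J * 2 * (B : ℝ) ^ (-(θ / 48)) * (boxJ J B).card := by
  have hB0 : (0 : ℝ) < B := by exact_mod_cast (by omega : 0 < B)
  have hB1 : (1 : ℝ) ≤ B := by exact_mod_cast (by omega : 1 ≤ B)
  obtain ⟨N, hN⟩ : ∃ N : ℕ, N = ⌊(B : ℝ) ^ (θ / 24)⌋₊ := ⟨_, rfl⟩
  have hNr : (N : ℝ) ≤ (B : ℝ) ^ (θ / 24) := by
    rw [hN]
    exact Nat.floor_le (by positivity)
  set E : ℕ → Finset (J → ℤ) := fun T => (boxJ J B).filter fun a =>
    (T : ℝ) ≤ (B : ℝ) ^ (θ / 24) ∧ Real.log B ≤ (T : ℝ) ^ α ∧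
      18 * (L ^ 2 + 1) / θ ≤ (T : ℝ) ^ (θ / 6) ∧
      (T : ℝ) ^ (-κ) < |(∑ p ∈ PRI T, Real.log p * t p a) / T| with hE
  have hsub : ((boxJ J B).filter fun a => ∃ T : ℕ, (T : ℝ) ≤ (B : ℝ) ^ (θ / 24) ∧
      Real.log B ≤ (T : ℝ) ^ α ∧ 18 * (L ^ 2 + 1) / θ ≤ (T : ℝ) ^ (θ / 6) ∧
      (T : ℝ) ^ (-κ) < |(∑ p ∈ PRI T, Real.log p * t p a) / T|) ⊆ (Icc 1 N).biUnion E := by
    intro a ha
    obtain ⟨ha1, T, h1, h2, h3, h4⟩ := Finset.mem_filter.1 ha
    rw [Finset.mem_biUnion]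
    have hT2 := two_le_T h4
    refine ⟨T, Finset.mem_Icc.2 ⟨by omega, by rw [hN]; exact Nat.le_floor h1⟩, ?_⟩
    rw [hE]
    exact Finset.mem_filter.2 ⟨ha1, h1, h2, h3, h4⟩
  have hb0 : (0 : ℝ) ≤ (boxJ J B).card := Nat.cast_nonneg _
  have hone : ∀ T ∈ Icc 1 N, ((E T).card : ℝ) ≤
      8 ^ Fintype.card J * (boxJ J B).card * (2 * (B : ℝ) ^ (-(θ / 24) - θ / 48)) := by
    intro T _
    by_cases hne : (E T).Nonempty
    · obtain ⟨a, ha⟩ := hne
      rw [hE] at ha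
      obtain ⟨_, h1, h2, h3, h4⟩ := Finset.mem_filter.1 ha
      have hT2 := two_le_T h4
      have hT0 : (0 : ℝ) < T := by exact_mod_cast (by omega : 0 < T)
      have hε : 0 < (T : ℝ) ^ (-κ) := Real.rpow_pos_of_pos hT0 _
      obtain ⟨k, hk⟩ : ∃ k, k = Nat.log T B / 2 := ⟨_, rfl⟩
      have hTB2 : T ^ 2 ≤ B := by
        have e1 : ((T : ℝ)) ^ 2 ≤ B := by
          calc (T : ℝ) ^ 2 ≤ ((B : ℝ) ^ (θ / 24)) ^ 2 := pow_le_pow_left₀ (Nat.cast_nonneg _) h1 2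
            _ = (B : ℝ) ^ (θ / 24 * 2) := by
              rw [← Real.rpow_natCast, ← Real.rpow_mul hB0.le]
              norm_num
            _ ≤ (B : ℝ) ^ (1 : ℝ) := Real.rpow_le_rpow_of_exponent_le hB1 (by linarith)
            _ = B := Real.rpow_one _
        exact_mod_cast e1
      have hlog : 2 ≤ Nat.log T B := by
        exact Nat.le_log_of_pow_le (by omega) hTB2
      have hk1 : 1 ≤ k := by omega
      have hTk : T ^ (2 * k) ≤ B := by
        refine le_trans (Nat.pow_le_pow_right (by omega) (by omega : 2 * k ≤ Nat.log T B)) ?_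
        exact Nat.pow_log_le_self T (by omega)
      have hBT : B < T ^ (2 * k + 2) := by
        have e5 : B < T ^ (Nat.log T B + 1) := Nat.lt_pow_succ_log_self (by omega : 1 < T) B
        exact lt_of_lt_of_le e5 (Nat.pow_le_pow_right (by omega) (by omega))
      have hlT : 0 < Real.log T := Real.log_pos (by exact_mod_cast (by omega : 1 < T))
      have h5 := dev1 ht hT2 hk1 hTk hε (B := B) (J := J)
      have h6 := base_K (L := L) hθ hT2 hα hTk h2 h3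
      have h7 := pow_small hθ hθ1 hT2 hB hBT h1
        (x := 6 * k * (L ^ 2 + 1) * Real.log T ^ 2 / (((T : ℝ) ^ (-κ)) ^ 2 * T)) (by positivity) h6
      have h8 : ((E T).card : ℝ) ≤
          (((boxJ J B).filter fun a => (T : ℝ) ^ (-κ) < |(∑ p ∈ PRI T, Real.log p * t p a) / T|).card : ℝ) := by
        have : E T ⊆ (boxJ J B).filter fun a =>
            (T : ℝ) ^ (-κ) < |(∑ p ∈ PRI T, Real.log p * t p a) / T| := by
          intro a ha
          rw [hE] at ha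
          obtain ⟨g1, g2⟩ := Finset.mem_filter.1 ha
          exact Finset.mem_filter.2 ⟨g1, g2.2.2.2⟩
        exact_mod_cast Finset.card_le_card this
      refine h8.trans (h5.trans ?_)
      apply mul_le_mul_of_nonneg_left _ (by positivity)
      linarith
    · rw [Finset.not_nonempty_iff_eq_empty] at hne
      rw [hne, Finset.card_empty, Nat.cast_zero]
      positivity
  have h1 : (((boxJ J B).filter fun a => ∃ T : ℕ, (T : ℝ) ≤ (B : ℝ) ^ (θ / 24) ∧
      Real.log B ≤ (T : ℝ) ^ α ∧ 18 * (L ^ 2 + 1) / θ ≤ (T : ℝ) ^ (θ / 6) ∧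
      (T : ℝ) ^ (-κ) < |(∑ p ∈ PRI T, Real.log p * t p a) / T|).card : ℝ) ≤
      ∑ T ∈ Icc 1 N, ((E T).card : ℝ) := by
    have h2 := (Finset.card_le_card hsub).trans Finset.card_biUnion_le
    exact_mod_cast h2
  refine h1.trans ((Finset.sum_le_sum hone).trans ?_)
  rw [Finset.sum_const, Nat.card_Icc, nsmul_eq_mul, Nat.add_sub_cancel]
  have h2 : (B : ℝ) ^ (-(θ / 24) - θ / 48) = (B : ℝ) ^ (-(θ / 24)) * (B : ℝ) ^ (-(θ / 48)) := by
    rw [← Real.rpow_add hB0]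
    congr 1
  have h3 : (N : ℝ) * (B : ℝ) ^ (-(θ / 24)) ≤ 1 := by
    calc (N : ℝ) * (B : ℝ) ^ (-(θ / 24)) ≤ (B : ℝ) ^ (θ / 24) * (B : ℝ) ^ (-(θ / 24)) :=
          mul_le_mul_of_nonneg_right hNr (by positivity)
      _ = 1 := by
          rw [← Real.rpow_add hB0, add_neg_cancel, Real.rpow_zero]
  rw [h2]
  calc (N : ℝ) * (8 ^ Fintype.card J * (boxJ J B).card * (2 * ((B : ℝ) ^ (-(θ / 24)) * (B : ℝ) ^ (-(θ / 48))))) =
      ((N : ℝ) * (B : ℝ) ^ (-(θ / 24))) * (8 ^ Fintype.card J * 2 * (B : ℝ) ^ (-(θ / 48)) * (boxJ J B).card) := by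
        ring
    _ ≤ 1 * (8 ^ Fintype.card J * 2 * (B : ℝ) ^ (-(θ / 48)) * (boxJ J B).card) :=
        mul_le_mul_of_nonneg_right h3 (by positivity)
    _ = _ := one_mul _

end Dev

section Center

variable {J : Type} [Fintype J] [DecidableEq J] {C D L : ℝ} (F : Fam J C D)

/-- The mean of the function of the prime `p`. -/
noncomputable def mF (p : ℕ) : ℝ := if h : p.Prime then
    haveI : Fact p.Prime := ⟨h⟩
    (∑ u, F.ff p u) / (p : ℝ) ^ Fintype.card J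
  else 0

/-- The centered function. -/
noncomputable def cF (p : ℕ) (a : J → ℤ) : ℝ := F.tm p a - mF F p

lemma mF_eq (p : ℕ) [Fact p.Prime] : mF F p = (∑ u, F.ff p u) / (p : ℝ) ^ Fintype.card J := by
  unfold mF
  rw [dif_pos (Fact.out : p.Prime)]

lemma mF_le (p : ℕ) [Fact p.Prime] : |mF F p| ≤ C / Real.sqrt p := by
  have hp : (0 : ℝ) < p := by exact_mod_cast (Fact.out : p.Prime).pos
  have hs : 0 < Real.sqrt p := Real.sqrt_pos.2 hp
  rw [mF_eq, abs_div, abs_of_pos (by positivity : (0 : ℝ) < (p : ℝ) ^ Fintype.card J),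
    div_le_div_iff₀ (by positivity) hs]
  have h := F.mean p
  calc |∑ u, F.ff p u| * Real.sqrt p ≤ C * ((p : ℝ) ^ Fintype.card J / Real.sqrt p) * Real.sqrt p :=
        mul_le_mul_of_nonneg_right h hs.le
    _ = _ := by field_simp

lemma famB_center (hL : 0 ≤ L) (h : ∀ (p : ℕ) [Fact p.Prime] (u : J → ZMod p), |F.ff p u| ≤ L) :
    FamB (cF F) (2 * L) := by
  refine ⟨by positivity, fun p hp => ?_⟩
  have hp0 : (0 : ℝ) < p := by exact_mod_cast (Fact.out : p.Prime).pos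
  have hP : (0 : ℝ) < (p : ℝ) ^ Fintype.card J := by positivity
  refine ⟨fun u => F.ff p u - mF F p, fun a => ?_, fun u => ?_, ?_⟩
  · unfold cF
    rw [F.tm_eq]
  · have h1 := abs_sub (F.ff p u) (mF F p)
    have h2 := h p u
    have h3 : |mF F p| ≤ L := by
      rw [mF_eq, abs_div, abs_of_pos hP, div_le_iff₀ hP]
      refine (Finset.abs_sum_le_sum_abs _ _).trans ((Finset.sum_le_sum fun u _ => h p u).trans
        (le_of_eq ?_))
      rw [Finset.sum_const, Finset.card_univ, Fintype.card_fun, ZMod.card, nsmul_eq_mul]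
      push_cast
      ring
    linarith
  · rw [Finset.sum_sub_distrib, Finset.sum_const, Finset.card_univ, Fintype.card_fun, ZMod.card,
      nsmul_eq_mul, mF_eq]
    push_cast
    field_simp
    ring

lemma PRI_eq (T : ℕ) : PRI T = PR T := rfl

/-- The contribution of the means. -/
lemma mean_part {T : ℕ} (hT : 2 ≤ T) :
    |(∑ p ∈ PR T, Real.log p * mF F p) / T| ≤ 2 * C * Real.log T / Real.sqrt T := by
  have hT0 : (0 : ℝ) < T := by exact_mod_cast (by omega : 0 < T)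
  have hs : 0 < Real.sqrt T := Real.sqrt_pos.2 hT0
  have hlT : 0 ≤ Real.log T := Real.log_nonneg (by exact_mod_cast (by omega : 1 ≤ T))
  have hC := F.hC
  have h1 : |∑ p ∈ PR T, Real.log p * mF F p| ≤ Real.log T * C * (2 * Real.sqrt T) := by
    refine (Finset.abs_sum_le_sum_abs _ _).trans ?_
    calc ∑ p ∈ PR T, |Real.log p * mF F p| ≤ ∑ p ∈ PR T, Real.log T * C * (1 / Real.sqrt p) := by
          refine Finset.sum_le_sum fun p hp => ?_
          unfold PR at hp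
          obtain ⟨h2, h3⟩ := Finset.mem_filter.1 hp
          have : Fact p.Prime := ⟨h3⟩
          have h4 := mF_le F p
          have h5 : 0 ≤ Real.log p := Real.log_nonneg (by exact_mod_cast h3.one_le)
          have h6 : Real.log p ≤ Real.log T := Real.log_le_log (by exact_mod_cast h3.pos)
            (by exact_mod_cast (Finset.mem_Icc.1 h2).2)
          rw [abs_mul, abs_of_nonneg h5]
          calc Real.log p * |mF F p| ≤ Real.log T * (C / Real.sqrt p) :=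
                mul_le_mul h6 h4 (abs_nonneg _) hlT
            _ = _ := by ring
      _ = Real.log T * C * ∑ p ∈ PR T, 1 / Real.sqrt p := by rw [Finset.mul_sum]
      _ ≤ Real.log T * C * ∑ p ∈ Icc 1 T, 1 / Real.sqrt p := by
          apply mul_le_mul_of_nonneg_left _ (by positivity)
          unfold PR
          exact Finset.sum_le_sum_of_subset_of_nonneg (Finset.filter_subset _ _)
            fun p _ _ => by positivity
      _ ≤ _ := mul_le_mul_of_nonneg_left (Pool.Agent.Helper28.TC.sum_inv_sqrt T) (by positivity)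
  rw [abs_div, abs_of_pos hT0, div_le_div_iff₀ hT0 hs]
  calc |∑ p ∈ PR T, Real.log p * mF F p| * Real.sqrt T ≤
      Real.log T * C * (2 * Real.sqrt T) * Real.sqrt T := mul_le_mul_of_nonneg_right h1 hs.le
    _ = 2 * C * Real.log T * (Real.sqrt T * Real.sqrt T) := by ring
    _ = _ := by rw [Real.mul_self_sqrt hT0.le]

/-- A power of `T` beats constants and logarithms. -/
lemma final_err {θ κ C : ℝ} (hθ : 0 < θ) (hκ : κ + θ / 8 ≤ 1 / 2 - θ / 4) (hC : 0 ≤ C) :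
    ∃ T₁ : ℕ, ∀ T : ℕ, T₁ ≤ T →
    (T : ℝ) ^ (-(κ + θ / 8)) + 2 * C * Real.log T / Real.sqrt T ≤ (T : ℝ) ^ (-κ) := by
  obtain ⟨T₁, hT₁⟩ : ∃ T₁ : ℕ, (1 + 8 * C / θ) ^ (8 / θ) ≤ T₁ := exists_nat_ge _
  refine ⟨max 2 T₁, fun T hT => ?_⟩
  have hT2 : 2 ≤ T := (le_max_left _ _).trans hT
  have hT1 : T₁ ≤ T := (le_max_right _ _).trans hT
  have hT0 : (0 : ℝ) < T := by exact_mod_cast (by omega : 0 < T)
  have hTone : (1 : ℝ) ≤ T := by exact_mod_cast (by omega : 1 ≤ T)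
  have hs : 0 < Real.sqrt T := Real.sqrt_pos.2 hT0
  have h1 : Real.log T ≤ (T : ℝ) ^ (θ / 4) / (θ / 4) := Real.log_le_rpow_div hT0.le (by positivity)
  have h2 : 2 * C * Real.log T / Real.sqrt T ≤ 8 * C / θ * (T : ℝ) ^ (θ / 4 - 1 / 2) := by
    have e : (T : ℝ) ^ (θ / 4 - 1 / 2) * (T : ℝ) ^ (1 / 2 : ℝ) = (T : ℝ) ^ (θ / 4) := by
      rw [← Real.rpow_add hT0]
      congr 1
      ring
    rw [div_le_iff₀ hs, Real.sqrt_eq_rpow]
    calc 2 * C * Real.log T ≤ 2 * C * ((T : ℝ) ^ (θ / 4) / (θ / 4)) :=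
          mul_le_mul_of_nonneg_left h1 (by positivity)
      _ = 8 * C / θ * ((T : ℝ) ^ (θ / 4 - 1 / 2) * (T : ℝ) ^ (1 / 2 : ℝ)) := by
          rw [e]
          field_simp
          ring
      _ = _ := by ring
  have h3 : (T : ℝ) ^ (θ / 4 - 1 / 2) ≤ (T : ℝ) ^ (-(κ + θ / 8)) :=
    Real.rpow_le_rpow_of_exponent_le hTone (by linarith)
  have h4 : (T : ℝ) ^ (-κ) = (T : ℝ) ^ (θ / 8) * (T : ℝ) ^ (-(κ + θ / 8)) := by
    rw [← Real.rpow_add hT0]
    congr 1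
    ring
  have h5 : 1 + 8 * C / θ ≤ (T : ℝ) ^ (θ / 8) := by
    have h6 : (1 + 8 * C / θ) ^ (8 / θ) ≤ T := hT₁.trans (by exact_mod_cast hT1)
    have h7 := Real.rpow_le_rpow (by positivity) h6 (by positivity : 0 ≤ θ / 8)
    rw [← Real.rpow_mul (by positivity)] at h7
    have h8 : 8 / θ * (θ / 8) = 1 := by field_simp
    rwa [h8, Real.rpow_one] at h7
  have h6 : 0 < (T : ℝ) ^ (-(κ + θ / 8)) := Real.rpow_pos_of_pos hT0 _
  rw [h4]
  have h7 : 8 * C / θ * (T : ℝ) ^ (θ / 4 - 1 / 2) ≤ 8 * C / θ * (T : ℝ) ^ (-(κ + θ / 8)) :=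
    mul_le_mul_of_nonneg_left h3 (by positivity)
  have h8 := mul_le_mul_of_nonneg_right h5 h6.le
  linarith

end Center

end Pool.Agent.LRP
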