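import Pool.Agent.LRP.LngK
import Pool.Agent.LRP.Low
import Pool.Agent.LRP.Defs

/-!
# Windows in terms of the height of the tuple
-/

set_option autoImplicit false

namespace Pool.Agent.LRP

open Finset
open Pool.Agent.Helper29.TT (PRI boxJ card_boxJ)
open Pool.Agent.Helper25.FM (FamB)
open Pool.Agent.Helper28.TC (Fam bx PR Bs rk card_box)
open Pool.Agent.Helper28.TC.N (Idx tt box pol average primeAverage DB average_le famN ffN)

lemma height_le {J : Type} [Fintype J] [DecidableEq J] {B : ℕ} {a : J → ℤ} :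
    height a ≤ B ↔ a ∈ bx J B := by
  unfold height bx
  rw [Finset.sup_le_iff, Fintype.mem_piFinset]
  constructor
  · intro h x
    have := h x (Finset.mem_univ x)
    rw [Finset.mem_Icc]
    omega
  · intro h x _
    have := Finset.mem_Icc.1 (h x)
    omega

section Low

variable {J : Type} [Fintype J] [DecidableEq J] {C D L : ℝ} (F : Fam J C D)

/-- The constant of the low range. -/
noncomputable def CL1 (J : Type) [Fintype J] : ℝ := 8 ^ Fintype.card J * 2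

open Classical in
/-- The low range for one family. -/
lemma low_fam (hL : 0 ≤ L) (h : ∀ (p : ℕ) [Fact p.Prime] (u : J → ZMod p), |F.ff p u| ≤ L)
    {θ κ α : ℝ} (hθ : 0 < θ) (hθ1 : θ ≤ 1) (hα : α + 2 * (κ + θ / 8) = 1 - θ / 2) {T₁ : ℕ}
    (hT₁ : ∀ T : ℕ, T₁ ≤ T →
      (T : ℝ) ^ (-(κ + θ / 8)) + 2 * C * Real.log T / Real.sqrt T ≤ (T : ℝ) ^ (-κ))
    {B : ℕ} (hB : 2 ≤ B) :
    (((bx J B).filter fun a => ∃ T : ℕ, T₁ ≤ T ∧ 2 ≤ T ∧ (T : ℝ) ≤ (B : ℝ) ^ (θ / 24) ∧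
      Real.log B ≤ (T : ℝ) ^ α ∧ 18 * ((2 * L) ^ 2 + 1) / θ ≤ (T : ℝ) ^ (θ / 6) ∧
      (T : ℝ) ^ (-κ) < |(∑ p ∈ PR T, Real.log p * F.tm p a) / T|).card : ℝ) ≤
      CL1 J * (B : ℝ) ^ (-(θ / 48)) * (bx J B).card := by
  have h1 := small_K (famB_center F hL h) hB hθ hθ1 hα
  refine le_trans ?_ h1
  have hsub : ((bx J B).filter fun a => ∃ T : ℕ, T₁ ≤ T ∧ 2 ≤ T ∧ (T : ℝ) ≤ (B : ℝ) ^ (θ / 24) ∧
      Real.log B ≤ (T : ℝ) ^ α ∧ 18 * ((2 * L) ^ 2 + 1) / θ ≤ (T : ℝ) ^ (θ / 6) ∧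
      (T : ℝ) ^ (-κ) < |(∑ p ∈ PR T, Real.log p * F.tm p a) / T|) ⊆
      (boxJ J B).filter fun a => ∃ T : ℕ, (T : ℝ) ≤ (B : ℝ) ^ (θ / 24) ∧
      Real.log B ≤ (T : ℝ) ^ α ∧ 18 * ((2 * L) ^ 2 + 1) / θ ≤ (T : ℝ) ^ (θ / 6) ∧
      (T : ℝ) ^ (-(κ + θ / 8)) < |(∑ p ∈ PRI T, Real.log p * cF F p a) / T| := by
    intro a ha
    obtain ⟨ha1, T, h2, h2', h3, h4, h5, h6⟩ := Finset.mem_filter.1 ha
    refine Finset.mem_filter.2 ⟨ha1, T, h3, h4, h5, ?_⟩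
    have h7 := hT₁ T h2
    have h8 := mean_part F h2'
    have h9 : (∑ p ∈ PRI T, Real.log p * cF F p a) / T =
        (∑ p ∈ PR T, Real.log p * F.tm p a) / T - (∑ p ∈ PR T, Real.log p * mF F p) / T := by
      rw [← sub_div, ← Finset.sum_sub_distrib, PRI_eq]
      congr 1
      refine Finset.sum_congr rfl fun p _ => ?_
      unfold cF
      ring
    rw [h9]
    have h10 := abs_sub_abs_le_abs_sub ((∑ p ∈ PR T, Real.log p * F.tm p a) / (T : ℝ))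
      ((∑ p ∈ PR T, Real.log p * mF F p) / T)
    linarith
  exact_mod_cast Finset.card_le_card hsub

end Low

section Main

variable {R : Type} [CommRing R] {k d : ℕ} {g : Fin k → ℕ}

open Classical in
/-- The low range. -/
lemma low (b : Module.Basis (Fin d) ℤ R) (hg : ∀ i, 1 ≤ g i)
    {w : ∀ p : ℕ, (R →+* ZMod p) → ℝ} (hw : ∀ p φ, |w p φ| ≤ 1)
    {θ κ α : ℝ} (hθ : 0 < θ) (hθ1 : θ ≤ 1) (hα : α + 2 * (κ + θ / 8) = 1 - θ / 2) {T₁ : ℕ}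
    (hT₁ : ∀ T : ℕ, T₁ ≤ T → (T : ℝ) ^ (-(κ + θ / 8)) +
      2 * (d * Pool.Agent.Helper28.TC.C1 g) * Real.log T / Real.sqrt T ≤ (T : ℝ) ^ (-κ))
    {B : ℕ} (hB : 2 ≤ B) :
    (((box g d B).filter fun a => ∃ T : ℕ, T₁ ≤ T ∧ 2 ≤ T ∧ (T : ℝ) ≤ (B : ℝ) ^ (θ / 24) ∧
      Real.log B ≤ (T : ℝ) ^ α ∧ 18 * ((2 * LF g d) ^ 2 + 1) / θ ≤ (T : ℝ) ^ (θ / 6) ∧
      ∃ m n : Fin k → ℕ, (∑ i, ((m i : ℝ) + n i)) ^ 2 * (T : ℝ) ^ (-κ) <
        |average w T g m n (pol b a) - rk m n * primeAverage w T|).card : ℝ) ≤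
      Fintype.card (Bs k) * CL1 (Idx g × Fin d) * (B : ℝ) ^ (-(θ / 48)) * (box g d B).card := by
  have hsub : ((box g d B).filter fun a => ∃ T : ℕ, T₁ ≤ T ∧ 2 ≤ T ∧ (T : ℝ) ≤ (B : ℝ) ^ (θ / 24) ∧
      Real.log B ≤ (T : ℝ) ^ α ∧ 18 * ((2 * LF g d) ^ 2 + 1) / θ ≤ (T : ℝ) ^ (θ / 6) ∧
      ∃ m n : Fin k → ℕ, (∑ i, ((m i : ℝ) + n i)) ^ 2 * (T : ℝ) ^ (-κ) <
        |average w T g m n (pol b a) - rk m n * primeAverage w T|) ⊆
      (univ : Finset (Bs k)).biUnion fun β => (bx (Idx g × Fin d) B).filter fun a =>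
        ∃ T : ℕ, T₁ ≤ T ∧ 2 ≤ T ∧ (T : ℝ) ≤ (B : ℝ) ^ (θ / 24) ∧
        Real.log B ≤ (T : ℝ) ^ α ∧ 18 * ((2 * LF g d) ^ 2 + 1) / θ ≤ (T : ℝ) ^ (θ / 6) ∧
        (T : ℝ) ^ (-κ) < |(∑ p ∈ PR T, Real.log p * (famN b hw hg β).tm p a) / T| := by
    intro a ha
    obtain ⟨ha1, T, h1, h1', h2, h3, h4, m, n, h5⟩ := Finset.mem_filter.1 ha
    rw [Finset.mem_biUnion]
    by_contra hcon
    push Not at hcon
    have h6 : ∀ β, |DB b w T a β| ≤ (T : ℝ) ^ (-κ) := by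
      intro β
      by_contra h7
      push Not at h7
      apply hcon β (Finset.mem_univ _)
      rw [Finset.mem_filter]
      exact ⟨ha1, T, h1, h1', h2, h3, h4, h7⟩
    exact absurd h5 (not_lt.2 (average_le m n b h6))
  have h1 : (((box g d B).filter fun a => ∃ T : ℕ, T₁ ≤ T ∧ 2 ≤ T ∧ (T : ℝ) ≤ (B : ℝ) ^ (θ / 24) ∧
      Real.log B ≤ (T : ℝ) ^ α ∧ 18 * ((2 * LF g d) ^ 2 + 1) / θ ≤ (T : ℝ) ^ (θ / 6) ∧
      ∃ m n : Fin k → ℕ, (∑ i, ((m i : ℝ) + n i)) ^ 2 * (T : ℝ) ^ (-κ) <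
        |average w T g m n (pol b a) - rk m n * primeAverage w T|).card : ℝ) ≤
      ∑ β : Bs k, (((bx (Idx g × Fin d) B).filter fun a =>
        ∃ T : ℕ, T₁ ≤ T ∧ 2 ≤ T ∧ (T : ℝ) ≤ (B : ℝ) ^ (θ / 24) ∧
        Real.log B ≤ (T : ℝ) ^ α ∧ 18 * ((2 * LF g d) ^ 2 + 1) / θ ≤ (T : ℝ) ^ (θ / 6) ∧
        (T : ℝ) ^ (-κ) < |(∑ p ∈ PR T, Real.log p * (famN b hw hg β).tm p a) / T|).card : ℝ) := by
    exact_mod_cast (Finset.card_le_card hsub).trans Finset.card_biUnion_le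
  refine h1.trans ((Finset.sum_le_sum fun β _ => low_fam (famN b hw hg β) (LF_nonneg g d)
    (fun p hp u => ffN_le b hw β u) hθ hθ1 hα hT₁ hB).trans ?_)
  rw [Finset.sum_const, Finset.card_univ, nsmul_eq_mul]
  apply le_of_eq
  have : box g d B = bx (Idx g × Fin d) B := rfl
  rw [this]
  ring

end Main

section Height

variable {J : Type} [Fintype J] [DecidableEq J]

open Classical in
/-- There are few vectors of small height. -/
lemma card_small_height [Nonempty J] {B : ℕ} (hB : 1 ≤ B) :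
    (((bx J B).filter fun a => height a ^ 2 < B).card : ℝ) ≤
      2 * (B : ℝ) ^ (-(1 / 2) : ℝ) * (bx J B).card := by
  have hsub : (bx J B).filter (fun a => height a ^ 2 < B) ⊆ bx J (Nat.sqrt B) := by
    intro a ha
    obtain ⟨_, h⟩ := Finset.mem_filter.1 ha
    rw [← height_le]
    rw [Nat.le_sqrt']
    exact h.le
  have h1 : (((bx J B).filter fun a => height a ^ 2 < B).card : ℝ) ≤ (bx J (Nat.sqrt B)).card := by
    exact_mod_cast Finset.card_le_card hsub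
  refine h1.trans ?_
  rw [card_box, card_box]
  obtain ⟨n, hn⟩ : ∃ n, Fintype.card J = n + 1 := ⟨Fintype.card J - 1, by
    have := Fintype.card_pos (α := J)
    omega⟩
  rw [hn, pow_succ, pow_succ]
  have hB0 : (0 : ℝ) < B := by exact_mod_cast hB
  have hs : (Nat.sqrt B : ℝ) ≤ Real.sqrt B := Real.nat_sqrt_le_real_sqrt
  have hsB : (Nat.sqrt B : ℝ) ≤ B := by exact_mod_cast Nat.sqrt_le_self B
  have h2 : (2 * (Nat.sqrt B : ℝ) + 1) ^ n ≤ (2 * (B : ℝ) + 1) ^ n :=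
    pow_le_pow_left₀ (by positivity) (by linarith) n
  have h3 : 2 * (Nat.sqrt B : ℝ) + 1 ≤ 2 * (B : ℝ) ^ (-(1 / 2) : ℝ) * (2 * B + 1) := by
    have h4 : (B : ℝ) ^ (-(1 / 2) : ℝ) * B = Real.sqrt B := by
      rw [Real.sqrt_eq_rpow]
      nth_rw 2 [← Real.rpow_one (B : ℝ)]
      rw [← Real.rpow_add hB0]
      norm_num
    have h5 : 1 ≤ Real.sqrt B := Real.one_le_sqrt.2 (by exact_mod_cast hB)
    have h6 : 0 ≤ (B : ℝ) ^ (-(1 / 2) : ℝ) := by positivity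
    have h7 : 2 * (B : ℝ) ^ (-(1 / 2) : ℝ) * (2 * B + 1) =
        4 * ((B : ℝ) ^ (-(1 / 2) : ℝ) * B) + 2 * (B : ℝ) ^ (-(1 / 2) : ℝ) := by ring
    rw [h7, h4]
    linarith
  calc (2 * (Nat.sqrt B : ℝ) + 1) ^ n * (2 * (Nat.sqrt B : ℝ) + 1) ≤
      (2 * (B : ℝ) + 1) ^ n * (2 * (B : ℝ) ^ (-(1 / 2) : ℝ) * (2 * B + 1)) :=
        mul_le_mul h2 h3 (by positivity) (by positivity)
    _ = _ := by ring

end Height

section Large

open Filter

lemma tendsto_cast : Tendsto (fun B : ℕ => (B : ℝ)) atTop atTop := tendsto_natCast_atTop_atTop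

lemma ev_rpow {c : ℝ} (hc : 0 < c) (K : ℝ) : ∀ᶠ B : ℕ in atTop, K ≤ (B : ℝ) ^ c :=
  ((tendsto_rpow_atTop hc).comp tendsto_cast).eventually_ge_atTop K

lemma ev_log (K : ℝ) : ∀ᶠ B : ℕ in atTop, K ≤ Real.log B :=
  (Real.tendsto_log_atTop.comp tendsto_cast).eventually_ge_atTop K

/-- A large power of the logarithm. -/
lemma ev_low {θ A : ℝ} (hθ : 0 < θ) (hA : 1 ≤ A) (T₁ : ℕ) (K : ℝ) : ∀ᶠ B : ℕ in atTop,
    ∀ T : ℕ, (Real.log B / 2) ^ A ≤ T → T₁ ≤ T ∧ 2 ≤ T ∧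
      Real.log B ≤ (T : ℝ) ^ (1 / A + θ / 4) ∧ K ≤ (T : ℝ) ^ (θ / 6) := by
  obtain ⟨x₀, hx₀⟩ : ∃ x₀ : ℝ, x₀ = max (max 2 ((T₁ : ℝ) + 2)) (max ((2 : ℝ) ^ (4 / θ))
    ((max K 1) ^ (6 / θ))) := ⟨_, rfl⟩
  filter_upwards [ev_log (2 * x₀)] with B hB T hT
  have hA0 : 0 < A := by linarith
  have hx : x₀ ≤ Real.log B / 2 := by linarith
  have h1 : 2 ≤ Real.log B / 2 := le_trans (by rw [hx₀]; exact (le_max_left _ _).trans (le_max_left _ _)) hx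
  have h2 : (T₁ : ℝ) + 2 ≤ Real.log B / 2 :=
    le_trans (by rw [hx₀]; exact (le_max_right _ _).trans (le_max_left _ _)) hx
  have h3 : (2 : ℝ) ^ (4 / θ) ≤ Real.log B / 2 :=
    le_trans (by rw [hx₀]; exact (le_max_left _ _).trans (le_max_right _ _)) hx
  have h4 : (max K 1) ^ (6 / θ) ≤ Real.log B / 2 :=
    le_trans (by rw [hx₀]; exact (le_max_right _ _).trans (le_max_right _ _)) hx
  obtain ⟨x, hx'⟩ : ∃ x, x = Real.log B / 2 := ⟨_, rfl⟩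
  rw [← hx'] at h1 h2 h3 h4 hT
  have hx0 : 0 < x := by linarith
  have hx1 : 1 ≤ x := by linarith
  have hTx : x ≤ T := by
    refine le_trans ?_ hT
    calc x = x ^ (1 : ℝ) := (Real.rpow_one x).symm
      _ ≤ x ^ A := Real.rpow_le_rpow_of_exponent_le hx1 hA
  have hT0 : (0 : ℝ) < T := by linarith
  refine ⟨?_, ?_, ?_, ?_⟩
  · have : (T₁ : ℝ) ≤ T := by linarith
    exact_mod_cast this
  · have : (2 : ℝ) ≤ T := by linarith
    exact_mod_cast this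
  · have h5 : (x ^ A) ^ (1 / A + θ / 4) ≤ (T : ℝ) ^ (1 / A + θ / 4) :=
      Real.rpow_le_rpow (by positivity) hT (by positivity)
    refine le_trans ?_ h5
    rw [← Real.rpow_mul hx0.le]
    have h6 : x ^ (1 + θ / 4) ≤ x ^ (A * (1 / A + θ / 4)) := by
      apply Real.rpow_le_rpow_of_exponent_le hx1
      have : A * (1 / A + θ / 4) = 1 + A * (θ / 4) := by field_simp
      rw [this]
      nlinarith
    refine le_trans ?_ h6
    rw [Real.rpow_add hx0, Real.rpow_one]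
    have h7 : 2 ≤ x ^ (θ / 4) := by
      have h8 := Real.rpow_le_rpow (by positivity) h3 (by positivity : 0 ≤ θ / 4)
      rw [← Real.rpow_mul (by norm_num)] at h8
      have h9 : 4 / θ * (θ / 4) = 1 := by field_simp
      rwa [h9, Real.rpow_one] at h8
    have h8 : Real.log B = x * 2 := by rw [hx']; ring
    rw [h8]
    exact mul_le_mul_of_nonneg_left h7 hx0.le
  · have hK : (0 : ℝ) < max K 1 := lt_of_lt_of_le one_pos (le_max_right _ _)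
    have h5 : (max K 1) ≤ x ^ (θ / 6) := by
      have h8 := Real.rpow_le_rpow (by positivity) h4 (by positivity : 0 ≤ θ / 6)
      rw [← Real.rpow_mul hK.le] at h8
      have h9 : 6 / θ * (θ / 6) = 1 := by field_simp
      rwa [h9, Real.rpow_one] at h8
    calc K ≤ max K 1 := le_max_left _ _
      _ ≤ x ^ (θ / 6) := h5
      _ ≤ _ := Real.rpow_le_rpow hx0.le hTx (by positivity)

/-- Powers beat logarithms. -/
lemma log_cube {c : ℝ} (hc : 0 < c) : ∃ T₂ : ℕ, ∀ T : ℕ, T₂ ≤ T → Real.log T ^ 3 ≤ (T : ℝ) ^ c := by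
  obtain ⟨T₂, hT₂⟩ : ∃ T₂ : ℕ, ((6 / c) ^ 3) ^ (2 / c) ≤ T₂ := exists_nat_ge _
  refine ⟨max 1 T₂, fun T hT => ?_⟩
  have hT1 : 1 ≤ T := (le_max_left _ _).trans hT
  have hT2 : T₂ ≤ T := (le_max_right _ _).trans hT
  have hT0 : (0 : ℝ) < T := by exact_mod_cast (by omega : 0 < T)
  have hTone : (1 : ℝ) ≤ T := by exact_mod_cast hT1
  have h1 : Real.log T ≤ (T : ℝ) ^ (c / 6) / (c / 6) := Real.log_le_rpow_div hT0.le (by positivity)
  have h0 : 0 ≤ Real.log T := Real.log_nonneg hTone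
  have h2 : Real.log T ^ 3 ≤ (6 / c) ^ 3 * (T : ℝ) ^ (c / 2) := by
    calc Real.log T ^ 3 ≤ ((T : ℝ) ^ (c / 6) / (c / 6)) ^ 3 := pow_le_pow_left₀ h0 h1 3
      _ = (6 / c) ^ 3 * ((T : ℝ) ^ (c / 6)) ^ 3 := by
          field_simp
      _ = (6 / c) ^ 3 * (T : ℝ) ^ (c / 2) := by
          rw [← Real.rpow_natCast ((T : ℝ) ^ (c / 6)) 3, ← Real.rpow_mul hT0.le]
          congr 2
          push_cast
          ring
  have h3 : (6 / c) ^ 3 ≤ (T : ℝ) ^ (c / 2) := by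
    have h4 : ((6 / c) ^ 3) ^ (2 / c) ≤ T := hT₂.trans (by exact_mod_cast hT2)
    have h5 := Real.rpow_le_rpow (by positivity) h4 (by positivity : 0 ≤ c / 2)
    rw [← Real.rpow_mul (by positivity)] at h5
    have h6 : 2 / c * (c / 2) = 1 := by field_simp
    rwa [h6, Real.rpow_one] at h5
  refine h2.trans ?_
  calc (6 / c) ^ 3 * (T : ℝ) ^ (c / 2) ≤ (T : ℝ) ^ (c / 2) * (T : ℝ) ^ (c / 2) :=
        mul_le_mul_of_nonneg_right h3 (by positivity)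
    _ = _ := by
        rw [← Real.rpow_add hT0]
        congr 1
        ring

end Large

end Pool.Agent.LRP
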