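import Pool.Agent.LRP.Own

/-!
# The main theorems
-/

set_option autoImplicit false

namespace Pool.Agent.LRP

open Finset
open Pool.Agent.Helper28.TC (Fam bx PR Bs rk card_box)
open Pool.Agent.Helper28.TC.N (Idx tt box pol average primeAverage DB average_le famN ffN)

variable {R : Type} [CommRing R] {k d : ℕ} {g : Fin k → ℕ}

open Classical in
/-- Both ranges, for every height. -/
theorem mainLK' (b : Module.Basis (Fin d) ℤ R) (hg : ∀ i, 1 ≤ g i) :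
    ∃ B₀ : ℕ, ∀ w : ∀ p : ℕ, (R →+* ZMod p) → ℝ, (∀ p φ, |w p φ| ≤ 1) →
      ∀ κ : ℝ, 0 ≤ κ → κ ≤ 1 / 2 → ∀ T₀ B : ℕ, 2 ≤ T₀ → T₀ ≤ B →
      (((box g d B).filter fun a => ∃ T : ℕ, T₀ ≤ T ∧
        (T ^ 2 ≤ B ∨ (B₀ ≤ B ∧ ∀ i, T ^ 9 ≤ B ^ (2 * g i))) ∧ ∃ m n : Fin k → ℕ,
        (∑ i, ((m i : ℝ) + n i)) ^ 2 * ((T : ℝ) ^ κ * (Real.log T ^ 3 / Real.sqrt T)) <
          |average w T g m n (pol b a) - rk m n * primeAverage w T|).card : ℝ) ≤
      (CUK g d + CLK g d) / ((T₀ : ℝ) ^ κ * Real.log T₀) * (box g d B).card := by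
  obtain ⟨B₀, hB₀⟩ := mainLK b hg
  refine ⟨B₀, fun w hw κ hκ hκ1 T₀ B hT₀ hT₀B => ?_⟩
  have hT0 : (2 : ℝ) ≤ T₀ := by exact_mod_cast hT₀
  have hlT : 0 < Real.log T₀ := Real.log_pos (by linarith)
  have hTκ : 0 < (T₀ : ℝ) ^ κ := Real.rpow_pos_of_pos (by linarith) _
  by_cases hB : B₀ ≤ B
  · refine le_trans ?_ (hB₀ w hw κ hκ hκ1 T₀ B hT₀ hT₀B hB)
    have hsub : ((box g d B).filter fun a => ∃ T : ℕ, T₀ ≤ T ∧
        (T ^ 2 ≤ B ∨ (B₀ ≤ B ∧ ∀ i, T ^ 9 ≤ B ^ (2 * g i))) ∧ ∃ m n : Fin k → ℕ,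
        (∑ i, ((m i : ℝ) + n i)) ^ 2 * ((T : ℝ) ^ κ * (Real.log T ^ 3 / Real.sqrt T)) <
          |average w T g m n (pol b a) - rk m n * primeAverage w T|) ⊆
        ((box g d B).filter fun a => ∃ T : ℕ, T₀ ≤ T ∧ InR g B T ∧ ∃ m n : Fin k → ℕ,
        (∑ i, ((m i : ℝ) + n i)) ^ 2 * ((T : ℝ) ^ κ * (Real.log T ^ 3 / Real.sqrt T)) <
          |average w T g m n (pol b a) - rk m n * primeAverage w T|) := by
      intro a ha
      obtain ⟨ha1, T, h1, h2, h3⟩ := Finset.mem_filter.1 ha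
      refine Finset.mem_filter.2 ⟨ha1, T, h1, ?_, h3⟩
      rcases h2 with h2 | h2
      · exact Or.inl h2
      · exact Or.inr h2.2
    exact_mod_cast Finset.card_le_card hsub
  · have hs := mainK b hg hw hκ (by linarith : κ ≤ 1) T₀ B hT₀
    have hsub : ((box g d B).filter fun a => ∃ T : ℕ, T₀ ≤ T ∧
        (T ^ 2 ≤ B ∨ (B₀ ≤ B ∧ ∀ i, T ^ 9 ≤ B ^ (2 * g i))) ∧ ∃ m n : Fin k → ℕ,
        (∑ i, ((m i : ℝ) + n i)) ^ 2 * ((T : ℝ) ^ κ * (Real.log T ^ 3 / Real.sqrt T)) <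
          |average w T g m n (pol b a) - rk m n * primeAverage w T|) ⊆
        ((box g d B).filter fun a => ∃ T : ℕ, T₀ ≤ T ∧ T ^ 2 ≤ B ∧ ∃ m n : Fin k → ℕ,
        (∑ i, ((m i : ℝ) + n i)) ^ 2 * ((T : ℝ) ^ κ * (Real.log T ^ 3 / Real.sqrt T)) <
          |average w T g m n (pol b a) - rk m n * primeAverage w T|) := by
      intro a ha
      obtain ⟨ha1, T, h1, h2, h3⟩ := Finset.mem_filter.1 ha
      refine Finset.mem_filter.2 ⟨ha1, T, h1, ?_, h3⟩
      rcases h2 with h2 | h2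
      · exact h2
      · exact absurd h2.1 hB
    refine (Nat.cast_le.2 (Finset.card_le_card hsub)).trans (hs.trans ?_)
    apply mul_le_mul_of_nonneg_right _ (Nat.cast_nonneg _)
    have h1 := CLK_nonneg g d
    exact div_le_div_of_nonneg_right (by linarith) (by positivity)

/-- There are no primes below two. -/
lemma avg_small (b : Fin d → R) (w : ∀ p : ℕ, (R →+* ZMod p) → ℝ) (m n : Fin k → ℕ) {T : ℕ} (hT : T < 2)
    (a : Idx g × Fin d → ℤ) :
    |average w T g m n (pol b a) - rk m n * primeAverage w T| = 0 := by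
  have h1 : (Icc 1 T).filter Nat.Prime = ∅ := by
    rw [Finset.filter_eq_empty_iff]
    intro p hp hpp
    have := (Finset.mem_Icc.1 hp).2
    have := hpp.two_le
    omega
  unfold average primeAverage
  rw [h1, Finset.sum_empty, Finset.sum_empty, zero_div, mul_zero, sub_zero, abs_zero]

open Classical in
/-- The exceptional tuples. -/
noncomputable def XS (b : Fin d → R) (g : Fin k → ℕ) (w : ∀ p : ℕ, (R →+* ZMod p) → ℝ) (κ A : ℝ)
    (B : ℕ) : Finset (Idx g × Fin d → ℤ) :=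
  (box g d B).filter fun a => ∃ T : ℕ, Real.log (height a) ^ A ≤ T ∧
    (T ^ 2 ≤ height a ∨ ∀ i, T ^ 9 ≤ height a ^ (2 * g i)) ∧ ∃ m n : Fin k → ℕ,
      (∑ i, ((m i : ℝ) + n i)) ^ 2 * (T : ℝ) ^ (-κ) <
        |average w T g m n (pol b a) - rk m n * primeAverage w T|

open Classical in
/-- The exceptional tuples are contained in the sets of the ranges. -/
lemma XS_sub (b : Module.Basis (Fin d) ℤ R) (w : ∀ p : ℕ, (R →+* ZMod p) → ℝ)
    {θ κ A : ℝ} (hA : 1 ≤ A) {T₁ T₂ : ℕ} {K : ℝ} {B : ℕ} (hB : 4 ≤ B)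
    (hlow : ∀ T : ℕ, (Real.log B / 2) ^ A ≤ T → T₁ ≤ T ∧ 2 ≤ T ∧
      Real.log B ≤ (T : ℝ) ^ (1 / A + θ / 4) ∧ K ≤ (T : ℝ) ^ (θ / 6))
    (hT₂ : ∀ T : ℕ, T₂ ≤ T → Real.log T ^ 3 ≤ (T : ℝ) ^ ((1 / 2 - κ) / 2))
    (hBT : (T₂ : ℝ) ≤ (B : ℝ) ^ (θ / 24)) :
    XS b g w κ A B ⊆
      ((bx (Idx g × Fin d) B).filter fun a => height a ^ 2 < B) ∪
      ((box g d B).filter fun a => ∃ T : ℕ, T₁ ≤ T ∧ 2 ≤ T ∧ (T : ℝ) ≤ (B : ℝ) ^ (θ / 24) ∧
        Real.log B ≤ (T : ℝ) ^ (1 / A + θ / 4) ∧ K ≤ (T : ℝ) ^ (θ / 6) ∧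
        ∃ m n : Fin k → ℕ, (∑ i, ((m i : ℝ) + n i)) ^ 2 * (T : ℝ) ^ (-κ) <
        |average w T g m n (pol b a) - rk m n * primeAverage w T|) ∪
      ((box g d B).filter fun a => ∃ T : ℕ, ⌊(B : ℝ) ^ (θ / 24)⌋₊ + 1 ≤ T ∧ InR g B T ∧
        ∃ m n : Fin k → ℕ, (∑ i, ((m i : ℝ) + n i)) ^ 2 *
          ((T : ℝ) ^ ((1 / 2 - κ) / 2) * (Real.log T ^ 3 / Real.sqrt T)) <
          |average w T g m n (pol b a) - rk m n * primeAverage w T|) := by
  intro a ha
  unfold XS at ha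
  obtain ⟨ha1, T, h1, hr, m, n, h2⟩ := Finset.mem_filter.1 ha
  have hB0 : (0 : ℝ) < B := by exact_mod_cast (by omega : 0 < B)
  have hB1 : (1 : ℝ) ≤ B := by exact_mod_cast (by omega : 1 ≤ B)
  by_cases hh : height a ^ 2 < B
  · exact Finset.mem_union_left _ (Finset.mem_union_left _ (Finset.mem_filter.2 ⟨ha1, hh⟩))
  push Not at hh
  have hhB : height a ≤ B := height_le.2 ha1
  have hhp : 0 < height a := by
    by_contra h0
    have : height a = 0 := by omega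
    rw [this] at hh
    omega
  have hR : InR g B T := by
    rcases hr with h1 | h1
    · exact Or.inl (h1.trans hhB)
    · exact Or.inr fun i => (h1 i).trans (Nat.pow_le_pow_left hhB _)
  have hhr : (B : ℝ) ≤ (height a : ℝ) ^ 2 := by exact_mod_cast hh
  have hS : 0 ≤ (∑ i, ((m i : ℝ) + n i)) ^ 2 := sq_nonneg _
  have hT2 : 2 ≤ T := by
    by_contra hT
    have h3 := avg_small b w m n (by omega : T < 2) a
    rw [h3] at h2
    exact absurd h2 (not_lt.2 (mul_nonneg hS (Real.rpow_nonneg (Nat.cast_nonneg _) _)))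
  have hT0 : (0 : ℝ) < T := by exact_mod_cast (by omega : 0 < T)
  have hTone : (1 : ℝ) ≤ T := by exact_mod_cast (by omega : 1 ≤ T)
  by_cases hTs : (T : ℝ) ≤ (B : ℝ) ^ (θ / 24)
  · -- low range
    have h3 : (Real.log B / 2) ^ A ≤ T := by
      refine le_trans ?_ h1
      apply Real.rpow_le_rpow _ _ (by linarith)
      · have := Real.log_nonneg hB1
        positivity
      · have h4 := Real.log_le_log hB0 hhr
        rw [Real.log_pow] at h4
        push_cast at h4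
        linarith
    obtain ⟨g1, g2, g3, g4⟩ := hlow T h3
    exact Finset.mem_union_left _ (Finset.mem_union_right _
      (Finset.mem_filter.2 ⟨ha1, T, g1, g2, hTs, g3, g4, m, n, h2⟩))
  · push Not at hTs
    refine Finset.mem_union_right _ (Finset.mem_filter.2 ⟨ha1, T, ?_, hR, m, n, ?_⟩)
    · have := (Nat.floor_lt (by positivity : 0 ≤ (B : ℝ) ^ (θ / 24))).2 hTs
      omega
    · refine lt_of_le_of_lt (mul_le_mul_of_nonneg_left ?_ hS) h2
      have h3 : T₂ ≤ T := by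
        have : (T₂ : ℝ) ≤ T := hBT.trans hTs.le
        exact_mod_cast this
      have hs : 0 < Real.sqrt T := Real.sqrt_pos.2 hT0
      have h4 : (T : ℝ) ^ ((1 / 2 - κ) / 2) * (Real.log T ^ 3 / Real.sqrt T) ≤
          (T : ℝ) ^ ((1 / 2 - κ) / 2) * ((T : ℝ) ^ ((1 / 2 - κ) / 2) / (T : ℝ) ^ (1 / 2 : ℝ)) := by
        apply mul_le_mul_of_nonneg_left _ (by positivity)
        rw [Real.sqrt_eq_rpow]
        exact div_le_div_of_nonneg_right (hT₂ T h3) (by positivity)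
      refine h4.trans (le_of_eq ?_)
      rw [← Real.rpow_sub hT0, ← Real.rpow_add hT0]
      congr 1
      ring

/-- Without polynomials, or without coordinates, there are no exceptional tuples. -/
lemma XS_empty (b : Module.Basis (Fin d) ℤ R) (hg : ∀ i, 1 ≤ g i) (w : ∀ p : ℕ, (R →+* ZMod p) → ℝ)
    (κ A : ℝ) (B : ℕ) (h : IsEmpty (Idx g × Fin d)) : XS b g w κ A B = ∅ := by
  classical
  unfold XS
  rw [Finset.filter_eq_empty_iff]
  rintro a _ ⟨T, _, hr, m, n, h2⟩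
  by_cases hk : k = 0
  · subst hk
    have h4 := average_le m n b (w := w) (T := T) (a := a)
      (E := ∑ β, |DB b w T a β|) fun β =>
        Finset.single_le_sum (f := fun β => |DB b w T a β|) (fun _ _ => abs_nonneg _)
          (Finset.mem_univ β)
    simp only [Finset.univ_eq_empty, Finset.sum_empty, ne_eq, OfNat.ofNat_ne_zero,
      not_false_eq_true, zero_pow, zero_mul] at h2 h4
    exact absurd h2 (not_lt.2 h4)
  · have hh : height a = 0 := by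
      unfold height
      rw [Finset.univ_eq_empty, Finset.sup_empty]
      rfl
    have hT : T = 0 := by
      rw [hh] at hr
      rcases hr with h1 | h1
      · exact pow_eq_zero_iff (by norm_num) |>.1 (Nat.le_zero.1 h1)
      · have h3 := h1 ⟨0, Nat.pos_of_ne_zero hk⟩
        rw [zero_pow (by have := hg ⟨0, Nat.pos_of_ne_zero hk⟩; omega)] at h3
        exact pow_eq_zero_iff (by norm_num) |>.1 (Nat.le_zero.1 h3)
    rw [avg_small b w m n (by omega : T < 2) a] at h2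
    exact absurd h2 (not_lt.2 (mul_nonneg (sq_nonneg _) (Real.rpow_nonneg (Nat.cast_nonneg _) _)))

open Classical in
/-- The number of the exceptional tuples. -/
theorem own (b : Module.Basis (Fin d) ℤ R) (hg : ∀ i, 1 ≤ g i) {κ A : ℝ} (hκ : 0 ≤ κ) (hA : 0 < A)
    (hκA : 0 < 1 - 2 * κ - 1 / A) :
    ∃ C : ℝ, ∀ w : ∀ p : ℕ, (R →+* ZMod p) → ℝ, (∀ p φ, |w p φ| ≤ 1) → ∀ B : ℕ, 1 ≤ B →
      ((XS b g w κ A B).card : ℝ) ≤
        C * (B : ℝ) ^ (-((1 - 2 * κ - 1 / A) ^ 2 / 100)) * (box g d B).card := by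
  obtain ⟨θ, hθ'⟩ : ∃ θ, θ = 1 - 2 * κ - 1 / A := ⟨_, rfl⟩
  rw [← hθ'] at hκA
  have hAi : 0 < 1 / A := by positivity
  have hθ1 : θ ≤ 1 := by linarith
  have hA1 : 1 ≤ A := by
    have h1 : 1 / A < 1 := by linarith
    rw [div_lt_one hA] at h1
    exact h1.le
  have hα : (1 / A + θ / 4) + 2 * (κ + θ / 8) = 1 - θ / 2 := by
    rw [hθ']
    ring
  have hC1 : 0 ≤ (d : ℝ) * Pool.Agent.Helper28.TC.C1 g :=
    mul_nonneg (Nat.cast_nonneg _) (by unfold Pool.Agent.Helper28.TC.C1; positivity)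
  obtain ⟨T₁, hT₁⟩ := final_err (κ := κ) hκA (by linarith) hC1
  obtain ⟨T₂, hT₂⟩ := log_cube (c := (1 / 2 - κ) / 2) (by linarith)
  obtain ⟨B₁, hB₁⟩ := mainLK (g := g) b hg
  obtain ⟨B₀, hB₀⟩ := Filter.eventually_atTop.1 ((ev_low hκA hA1 T₁
    (18 * ((2 * LF g d) ^ 2 + 1) / θ)).and ((ev_rpow (by positivity : 0 < θ / 24) (T₂ : ℝ)).and
      ((Filter.eventually_ge_atTop 4).and (Filter.eventually_ge_atTop B₁))))
  have hCU := CUK_nonneg (g := g) (d := d)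
  have hCL := CLK_nonneg g d
  have hl2 : 0 < Real.log 2 := Real.log_pos (by norm_num)
  have hCL1 : 0 ≤ CL1 (Idx g × Fin d) := by unfold CL1; positivity
  obtain ⟨C', hC'⟩ : ∃ C', C' = 2 + Fintype.card (Bs k) * CL1 (Idx g × Fin d) +
      (CUK g d + CLK g d) / Real.log 2 := ⟨_, rfl⟩
  have hC'0 : 0 ≤ C' := by rw [hC']; positivity
  refine ⟨C' + B₀, fun w hw B hB => ?_⟩
  rw [← hθ']
  have hN : (0 : ℝ) ≤ (box g d B).card := Nat.cast_nonneg _
  have hBr : (0 : ℝ) < B := by exact_mod_cast (by omega : 0 < B)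
  have hBr1 : (1 : ℝ) ≤ B := by exact_mod_cast hB
  have hc0 : 0 ≤ θ ^ 2 / 100 := by positivity
  have hc1 : θ ^ 2 / 100 ≤ 1 := by nlinarith
  have hpow : 0 < (B : ℝ) ^ (-(θ ^ 2 / 100)) := Real.rpow_pos_of_pos hBr _
  rcases isEmpty_or_nonempty (Idx g × Fin d) with he | he
  · rw [XS_empty b hg w κ A B he, Finset.card_empty, Nat.cast_zero]
    positivity
  by_cases hBB : B < B₀
  · -- small boxes
    have h1 : ((XS b g w κ A B).card : ℝ) ≤ (box g d B).card := by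
      unfold XS
      exact_mod_cast Finset.card_filter_le _ _
    refine h1.trans ?_
    have h2 : 1 ≤ (C' + B₀) * (B : ℝ) ^ (-(θ ^ 2 / 100)) := by
      have h3 : (B : ℝ) ^ (-(1 : ℝ)) ≤ (B : ℝ) ^ (-(θ ^ 2 / 100)) :=
        Real.rpow_le_rpow_of_exponent_le hBr1 (by linarith)
      have h4 : (B : ℝ) ≤ C' + B₀ := by
        have : (B : ℝ) ≤ B₀ := by exact_mod_cast hBB.le
        linarith
      calc (1 : ℝ) = B * (B : ℝ) ^ (-(1 : ℝ)) := by
            rw [Real.rpow_neg_one, mul_inv_cancel₀ hBr.ne']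
        _ ≤ (C' + B₀) * (B : ℝ) ^ (-(θ ^ 2 / 100)) :=
            mul_le_mul h4 h3 (by positivity) (by positivity)
    calc ((box g d B).card : ℝ) = 1 * (box g d B).card := (one_mul _).symm
      _ ≤ _ := mul_le_mul_of_nonneg_right h2 hN
  push Not at hBB
  obtain ⟨hlow, hBT, hB4, hB1⟩ := hB₀ B hBB
  have hsub := XS_sub (g := g) (κ := κ) (θ := θ) b w hA1 hB4 hlow hT₂ hBT
  have h0 : (((bx (Idx g × Fin d) B).filter fun a => height a ^ 2 < B).card : ℝ) ≤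
      2 * (B : ℝ) ^ (-(θ ^ 2 / 100)) * (box g d B).card := by
    refine (card_small_height hB).trans ?_
    have h1 : (B : ℝ) ^ (-(1 / 2) : ℝ) ≤ (B : ℝ) ^ (-(θ ^ 2 / 100)) := by
      apply Real.rpow_le_rpow_of_exponent_le hBr1
      nlinarith
    have h2 : bx (Idx g × Fin d) B = box g d B := rfl
    rw [h2]
    apply mul_le_mul_of_nonneg_right _ hN
    linarith
  have h1 := low (g := g) (d := d) b hg hw hκA hθ1 hα hT₁ (B := B) (by omega)
  have h1' : Fintype.card (Bs k) * CL1 (Idx g × Fin d) * (B : ℝ) ^ (-(θ / 48)) * (box g d B).card ≤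
      Fintype.card (Bs k) * CL1 (Idx g × Fin d) * (B : ℝ) ^ (-(θ ^ 2 / 100)) * (box g d B).card := by
    apply mul_le_mul_of_nonneg_right _ hN
    apply mul_le_mul_of_nonneg_left _ (by positivity)
    apply Real.rpow_le_rpow_of_exponent_le hBr1
    nlinarith
  -- the long range
  obtain ⟨T₀, hT₀⟩ : ∃ T₀ : ℕ, T₀ = ⌊(B : ℝ) ^ (θ / 24)⌋₊ + 1 := ⟨_, rfl⟩
  have hT₀1 : (B : ℝ) ^ (θ / 24) ≤ T₀ := by
    rw [hT₀]
    push_cast
    exact (Nat.lt_floor_add_one _).le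
  have hone : 1 ≤ (B : ℝ) ^ (θ / 24) := Real.one_le_rpow hBr1 (by positivity)
  have hT₀2 : 2 ≤ T₀ := by
    rw [hT₀]
    have : 1 ≤ ⌊(B : ℝ) ^ (θ / 24)⌋₊ := Nat.le_floor (by exact_mod_cast hone)
    omega
  have hT₀B : T₀ ≤ B := by
    have h2 : (B : ℝ) ^ (θ / 24) ≤ (B : ℝ) ^ (1 / 2 : ℝ) :=
      Real.rpow_le_rpow_of_exponent_le hBr1 (by linarith)
    have h3 : (B : ℝ) ^ (1 / 2 : ℝ) ≤ B / 2 := by
      rw [← Real.sqrt_eq_rpow, Real.sqrt_le_left (by positivity)]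
      have h4 : (4 : ℝ) ≤ B := by exact_mod_cast hB4
      nlinarith
    have h4 : (⌊(B : ℝ) ^ (θ / 24)⌋₊ : ℝ) ≤ B / 2 := (Nat.floor_le (by positivity)).trans (h2.trans h3)
    have h5 : (T₀ : ℝ) ≤ B := by
      rw [hT₀]
      push_cast
      have h6 : (4 : ℝ) ≤ B := by exact_mod_cast hB4
      linarith
    exact_mod_cast h5
  have h2 := hB₁ w hw ((1 / 2 - κ) / 2) (by linarith) (by linarith) T₀ B hT₀2 hT₀B hB1
  have h2' : (CUK g d + CLK g d) / ((T₀ : ℝ) ^ ((1 / 2 - κ) / 2) * Real.log T₀) * (box g d B).card ≤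
      (CUK g d + CLK g d) / Real.log 2 * (B : ℝ) ^ (-(θ ^ 2 / 100)) * (box g d B).card := by
    apply mul_le_mul_of_nonneg_right _ hN
    have hT₀r : (2 : ℝ) ≤ T₀ := by exact_mod_cast hT₀2
    have e1 : Real.log 2 ≤ Real.log T₀ := Real.log_le_log (by norm_num) hT₀r
    have e2 : (B : ℝ) ^ (θ ^ 2 / 100) ≤ (T₀ : ℝ) ^ ((1 / 2 - κ) / 2) := by
      calc (B : ℝ) ^ (θ ^ 2 / 100) ≤ (B : ℝ) ^ (θ / 24 * ((1 / 2 - κ) / 2)) := by
            apply Real.rpow_le_rpow_of_exponent_le hBr1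
            nlinarith
        _ = ((B : ℝ) ^ (θ / 24)) ^ ((1 / 2 - κ) / 2) := by rw [Real.rpow_mul hBr.le]
        _ ≤ _ := Real.rpow_le_rpow (by positivity) hT₀1 (by linarith)
    rw [Real.rpow_neg hBr.le, div_mul_eq_mul_div, ← div_eq_mul_inv, div_div]
    apply div_le_div_of_nonneg_left (by positivity) (by positivity)
    exact mul_le_mul e2 e1 hl2.le (by positivity)
  rw [← hT₀] at hsub
  have h3 := (Finset.card_le_card hsub).trans ((Finset.card_union_le _ _).trans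
    (Nat.add_le_add_right (Finset.card_union_le _ _) _))
  have h4 := (Nat.cast_le (α := ℝ)).2 h3
  rw [Nat.cast_add, Nat.cast_add] at h4
  refine h4.trans ((add_le_add (add_le_add h0 (h1.trans h1')) (h2.trans h2')).trans ?_)
  rw [hC']
  have h5 : (0 : ℝ) ≤ B₀ * (B : ℝ) ^ (-(θ ^ 2 / 100)) * (box g d B).card := by positivity
  nlinarith

end Pool.Agent.LRP
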