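import Pool.Agent.Helper28.TM.Main
import Pool.Agent.LRP.AbsK

/-!
# The long range with a power saving exceptional set
-/

set_option autoImplicit false

namespace Pool.Agent.LRP

open Polynomial Finset
open Pool.Agent.Helper28.TC (BA bx card_box PR Bs RM AA AA_nonneg sum_inv_sq rk)
open Pool.Agent.Helper28.TC.N (Idx tt box pol average primeAverage DB average_le)
open Pool.Agent.Helper28.TL (rdM rd_up ZZ ZZ_nonneg SA v1 er Ce Ce_nonneg HT HT_eq HT_mod VT ET YT BT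
  Mom mom_of box_mean er_nonneg SA_two xl PS bad_levelL exceedL mean_sqrt mean_one level_pos
  level_sqrt_aux level_one_aux le_PS CBd CBd_nonneg bad_primes ND rare BT_nonneg YT_nonneg
  ET_nonneg sum_tt exists_c e0 e0_pos Ce_e0)
open Pool.Agent.Helper28.TM

lemma final_realK {V E Bd Y C c s t L lB ε u : ℝ} (hs : 1 ≤ s) (ht : t = s ^ 2) (hL : 0 ≤ L)
    (hu : 1 ≤ u) (hc : 0 ≤ c) (hV : V ≤ 1 / 4 * (s * L ^ 3 * u)) (hC : 0 ≤ C)
    (hE : E ≤ ε * (s * L ^ 3 * u))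
    (hε : C * ε ≤ 1 / 4) (hB0 : 0 ≤ Bd) (hB : Bd ≤ c * lB) (hlB : lB ≤ 2 * L)
    (hY : Y ≤ t * L ^ 3 * u) (hcL : 32 * c ≤ L ^ 2) :
    V + (C * E + (2 * Bd + Real.sqrt Bd * Real.sqrt Y)) ≤ s * L ^ 3 * u := by
  have hsL : 0 ≤ s * L ^ 3 * u := by positivity
  have h1 : C * E ≤ 1 / 4 * (s * L ^ 3 * u) := by
    calc C * E ≤ C * (ε * (s * L ^ 3 * u)) := mul_le_mul_of_nonneg_left hE hC
      _ = (C * ε) * (s * L ^ 3 * u) := by ring
      _ ≤ _ := mul_le_mul_of_nonneg_right hε hsL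
  have h2 : Bd ≤ 2 * c * L := by
    refine hB.trans ?_
    calc c * lB ≤ c * (2 * L) := mul_le_mul_of_nonneg_left hlB hc
      _ = _ := by ring
  have h3 : 2 * c * L ≤ 1 / 16 * L ^ 3 := by nlinarith
  have h4 : 1 / 16 * L ^ 3 ≤ 1 / 16 * (s * L ^ 3 * u) := by
    have h5 : 0 ≤ L ^ 3 := by positivity
    have h6 : L ^ 3 ≤ s * L ^ 3 := by nlinarith
    have h7 : s * L ^ 3 ≤ s * L ^ 3 * u := by
      have : 0 ≤ s * L ^ 3 := by positivity
      nlinarith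
    linarith
  have h5 : Real.sqrt Bd * Real.sqrt Y ≤ 1 / 4 * (s * L ^ 3 * u) := by
    rw [← Real.sqrt_mul hB0]
    apply Real.sqrt_le_iff.2
    refine ⟨by positivity, ?_⟩
    rcases le_total Y 0 with hY0 | hY0
    · have : Bd * Y ≤ 0 := mul_nonpos_of_nonneg_of_nonpos hB0 hY0
      have h6 : 0 ≤ (1 / 4 * (s * L ^ 3 * u)) ^ 2 := sq_nonneg _
      linarith
    · calc Bd * Y ≤ (1 / 16 * L ^ 3) * (t * L ^ 3 * u) :=
            mul_le_mul (h2.trans h3) hY hY0 (by positivity)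
        _ = (1 / 4 * (s * L ^ 3)) ^ 2 * u := by rw [ht]; ring
        _ ≤ (1 / 4 * (s * L ^ 3)) ^ 2 * (u * u) := by
            apply mul_le_mul_of_nonneg_left _ (sq_nonneg _)
            nlinarith
        _ = _ := by ring
  linarith

section Level

variable {R : Type} [CommRing R] {k d : ℕ} {g : Fin k → ℕ} (b : Module.Basis (Fin d) ℤ R)
  (w : ∀ p : ℕ, (R →+* ZMod p) → ℝ)

open Classical in
/-- The bad vectors of a level. -/
noncomputable def LVK (κ : ℝ) (B K j : ℕ) : Finset (Idx g × Fin d → ℤ) :=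
  (univ.biUnion fun β : Bs k => (bx (Idx g × Fin d) B).filter fun a =>
    ((1 / 4 : ℝ) ^ 2 * la κ j ^ 2) * ((2 : ℝ) ^ j * ((j : ℝ) * Real.log 2) ^ 6) <
      RM (xl (VT b w β) K a) (j + 1) 0) ∪
  ((bx (Idx g × Fin d) B).filter fun a =>
    (e0 g * la κ j) * (Real.sqrt (2 ^ j) * ((j : ℝ) * Real.log 2) ^ 3) < PS (ET b) K j a) ∪
  (univ.biUnion fun β : Bs k => (bx (Idx g × Fin d) B).filter fun a =>
    la κ j * (2 ^ j * ((j : ℝ) * Real.log 2) ^ 3) < PS (YT b β) K j a)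

variable {M H W K B : ℕ} [NeZero M] {c : Fin d → ℤ} (hc : ∑ l, (c l : R) * b l = 1)
  (hW : ∑ l, |c l| ≤ (W : ℤ))
  (hA : ∀ i N, 1 ≤ N → N ≤ K ^ 4 → ∃ 𝒢 : Finset ℤ[X], 𝒢.card ^ 4 ≤ Cp (g i) ^ 4 * N ∧
    Adm (2 * g i + 2) M (H * W) (mp (g i)) 𝒢 N)
  (hM : M = 8 * B * H) (hB : 1 ≤ B) (hH : 1 ≤ H) (hdvd : ∀ p, p.Prime → p ≤ K → p ∣ M)

variable {w}

include hc hW hA hM hB hH hdvd in
lemma card_LVK {κ : ℝ} (hκ : 0 ≤ κ) (hw : ∀ p φ, |w p φ| ≤ 1) {j : ℕ} (hj : 1 ≤ j) :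
    ((LVK (g := g) b w κ B K j).card : ℝ) ≤
      AA (Idx g × Fin d) B * cA g d * (1 / (j : ℝ) ^ 2) / la κ j := by
  classical
  have hl : 0 < Real.log 2 := Real.log_pos (by norm_num)
  have hj0 : (0 : ℝ) < j := by exact_mod_cast hj
  have hAA := AA_nonneg (Idx g × Fin d) B
  have hS := S0_pos g
  have he := e0_pos g
  have hd0 : (0 : ℝ) ≤ d := Nat.cast_nonneg d
  have hla := la_pos κ j
  have hla1 := one_le_la hκ j
  have h1 : ∀ β : Bs k, (((bx (Idx g × Fin d) B).filter fun a =>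
      ((1 / 4 : ℝ) ^ 2 * la κ j ^ 2) * ((2 : ℝ) ^ j * ((j : ℝ) * Real.log 2) ^ 6) <
      RM (xl (VT b w β) K a) (j + 1) 0).card : ℝ) ≤
      AA (Idx g × Fin d) B * cV g d * (1 / (j : ℝ) ^ 2) / la κ j := by
    intro β
    have F := mom_VT (κ := fun i => mp (g i)) (C := fun i => Cp (g i)) b hc hW hA hM hB hH hdvd hw β
    refine (bad_levelL F (by positivity : (0 : ℝ) < (1 / 4) ^ 2 * la κ j ^ 2) hj).trans ?_
    have e1 : AA (Idx g × Fin d) B * cV g d * (1 / (j : ℝ) ^ 2) / la κ j ^ 2 ≤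
        AA (Idx g × Fin d) B * cV g d * (1 / (j : ℝ) ^ 2) / la κ j := by
      have h0 : 0 ≤ AA (Idx g × Fin d) B * cV g d * (1 / (j : ℝ) ^ 2) := by
        have := cV_nonneg g d
        positivity
      apply div_le_div_of_nonneg_left h0 hla
      nlinarith
    refine le_trans (le_of_eq ?_) e1
    unfold cV S0
    field_simp
  have h2 : (((bx (Idx g × Fin d) B).filter fun a =>
      (e0 g * la κ j) * (Real.sqrt (2 ^ j) * ((j : ℝ) * Real.log 2) ^ 3) < PS (ET b) K j a).card : ℝ) ≤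
      AA (Idx g × Fin d) B * cE g d * (1 / (j : ℝ) ^ 2) / la κ j := by
    have hm := mean_sqrt (y := ET (g := g) b) (K := K) (B := B) (j := j)
      (m := d * (1 + k * (7 * S0 g))) (by positivity)
      (fun p hp hpK => mean_ET (κ := fun i => mp (g i)) (C := fun i => Cp (g i)) b hc hW hA hM hB hH hdvd p hp hpK)
    have hθ : 0 < (e0 g * la κ j) * (Real.sqrt (2 ^ j) * ((j : ℝ) * Real.log 2) ^ 3) := by positivity
    have h3 := level_pos (y := ET (g := g) b) (ET_nonneg b) hθ hm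
    refine h3.trans ((level_sqrt_aux hAA (by positivity) (by positivity) hl hj).trans (le_of_eq ?_))
    unfold cE
    field_simp
  have h3 : ∀ β : Bs k, (((bx (Idx g × Fin d) B).filter fun a =>
      la κ j * (2 ^ j * ((j : ℝ) * Real.log 2) ^ 3) < PS (YT b β) K j a).card : ℝ) ≤
      AA (Idx g × Fin d) B * cY g d * (1 / (j : ℝ) ^ 2) / la κ j := by
    intro β
    have hm := mean_one (y := YT (g := g) b β) (K := K) (B := B) (j := j)
      (m := d * (88 * S0 g)) (by positivity)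
      (fun p hp hpK => mean_YT (κ := fun i => mp (g i)) (C := fun i => Cp (g i)) b hc hW hA hM hB hH hdvd β p hp hpK)
    have hθ : 0 < la κ j * (2 ^ j * ((j : ℝ) * Real.log 2) ^ 3) := by positivity
    have h3 := level_pos (y := YT (g := g) b β) (YT_nonneg b β) hθ hm
    refine h3.trans ((level_one_aux hAA (by positivity) hla hl hj).trans (le_of_eq ?_))
    unfold cY
    field_simp
  have h4 : ((LVK (g := g) b w κ B K j).card : ℝ) ≤
      ∑ β : Bs k, (((bx (Idx g × Fin d) B).filter fun a =>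
        ((1 / 4 : ℝ) ^ 2 * la κ j ^ 2) * ((2 : ℝ) ^ j * ((j : ℝ) * Real.log 2) ^ 6) <
        RM (xl (VT b w β) K a) (j + 1) 0).card : ℝ) +
      (((bx (Idx g × Fin d) B).filter fun a =>
        (e0 g * la κ j) * (Real.sqrt (2 ^ j) * ((j : ℝ) * Real.log 2) ^ 3) < PS (ET b) K j a).card : ℝ) +
      ∑ β : Bs k, (((bx (Idx g × Fin d) B).filter fun a =>
        la κ j * (2 ^ j * ((j : ℝ) * Real.log 2) ^ 3) < PS (YT b β) K j a).card : ℝ) := by
    unfold LVK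
    have e1 := Finset.card_union_le
      ((univ.biUnion fun β : Bs k => (bx (Idx g × Fin d) B).filter fun a =>
        ((1 / 4 : ℝ) ^ 2 * la κ j ^ 2) * ((2 : ℝ) ^ j * ((j : ℝ) * Real.log 2) ^ 6) <
          RM (xl (VT b w β) K a) (j + 1) 0) ∪
        ((bx (Idx g × Fin d) B).filter fun a =>
          (e0 g * la κ j) * (Real.sqrt (2 ^ j) * ((j : ℝ) * Real.log 2) ^ 3) < PS (ET b) K j a))
      (univ.biUnion fun β : Bs k => (bx (Idx g × Fin d) B).filter fun a =>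
        la κ j * (2 ^ j * ((j : ℝ) * Real.log 2) ^ 3) < PS (YT b β) K j a)
    have e2 := Finset.card_union_le
      (univ.biUnion fun β : Bs k => (bx (Idx g × Fin d) B).filter fun a =>
        ((1 / 4 : ℝ) ^ 2 * la κ j ^ 2) * ((2 : ℝ) ^ j * ((j : ℝ) * Real.log 2) ^ 6) <
          RM (xl (VT b w β) K a) (j + 1) 0)
      ((bx (Idx g × Fin d) B).filter fun a =>
          (e0 g * la κ j) * (Real.sqrt (2 ^ j) * ((j : ℝ) * Real.log 2) ^ 3) < PS (ET b) K j a)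
    have e3 := Finset.card_biUnion_le (s := (univ : Finset (Bs k)))
      (t := fun β => (bx (Idx g × Fin d) B).filter fun a =>
        ((1 / 4 : ℝ) ^ 2 * la κ j ^ 2) * ((2 : ℝ) ^ j * ((j : ℝ) * Real.log 2) ^ 6) <
          RM (xl (VT b w β) K a) (j + 1) 0)
    have e4 := Finset.card_biUnion_le (s := (univ : Finset (Bs k)))
      (t := fun β => (bx (Idx g × Fin d) B).filter fun a =>
        la κ j * (2 ^ j * ((j : ℝ) * Real.log 2) ^ 3) < PS (YT b β) K j a)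
    have e5 := e1.trans (add_le_add (e2.trans (add_le_add e3 le_rfl)) e4)
    exact_mod_cast e5
  refine h4.trans ((add_le_add (add_le_add (Finset.sum_le_sum fun β _ => h1 β) h2)
    (Finset.sum_le_sum fun β _ => h3 β)).trans (le_of_eq ?_))
  rw [Finset.sum_const, Finset.sum_const, Finset.card_univ, nsmul_eq_mul, nsmul_eq_mul]
  unfold cA
  ring

/-- The inequality outside of the bad levels. -/
lemma good_ofK {κ : ℝ} (hκ : 0 ≤ κ) {T : ℕ} (hw : ∀ p φ, |w p φ| ≤ 1) (hT : 2 ≤ T) (hTK : T ≤ K)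
    {a : Idx g × Fin d → ℤ} (ha : a ∈ bx (Idx g × Fin d) B)
    (hlv : a ∉ LVK (g := g) b w κ B K (Nat.log 2 T))
    (hbad : ∑ p ∈ PR T, Real.log p * BT (g := g) b p a ≤ CBd g d * Real.log B)
    (hBT : B < T ^ 2) (hB : 1 ≤ B) (hL : 128 * CBd g d ≤ Real.log B ^ 2) (β : Bs k) :
    |∑ p ∈ PR T, Real.log p * tt b w β p a| ≤ Real.sqrt T * Real.log T ^ 3 * (T : ℝ) ^ κ := by
  classical
  have hT0 : (0 : ℝ) < T := by exact_mod_cast (by omega : 0 < T)
  have hT1 : (1 : ℝ) ≤ T := by exact_mod_cast (by omega : 1 ≤ T)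
  have hB0 : (0 : ℝ) < B := by exact_mod_cast hB
  have hB1 : (1 : ℝ) ≤ B := by exact_mod_cast hB
  have hlT : 0 ≤ Real.log T := Real.log_nonneg hT1
  have hlB : 0 ≤ Real.log B := Real.log_nonneg hB1
  have hl2 : 0 < Real.log 2 := Real.log_pos (by norm_num)
  have hs1 : 1 ≤ Real.sqrt T := Real.one_le_sqrt.2 hT1
  have hs2 : (T : ℝ) = Real.sqrt T ^ 2 := (Real.sq_sqrt hT0.le).symm
  have hu1 : 1 ≤ (T : ℝ) ^ κ := Real.one_le_rpow hT1 hκ
  have hla := la_le hκ (by omega : 1 ≤ T)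
  unfold LVK at hlv
  rw [Finset.mem_union, Finset.mem_union, not_or, not_or] at hlv
  obtain ⟨⟨hv1, hv2⟩, hv3⟩ := hlv
  obtain ⟨j, hj⟩ : ∃ j, j = Nat.log 2 T := ⟨_, rfl⟩
  rw [← hj] at hv1 hv2 hv3 hla
  have hlap := la_pos κ j
  have h2j : (2 : ℝ) ^ j ≤ T := by
    rw [hj]
    exact_mod_cast Nat.pow_log_le_self 2 (by omega)
  have hjl : ((j : ℕ) : ℝ) * Real.log 2 ≤ Real.log T := by
    rw [← Real.log_pow]
    exact Real.log_le_log (by positivity) h2j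
  have hjl0 : (0 : ℝ) ≤ (j : ℝ) * Real.log 2 := by positivity
  have hjl3 : ((j : ℝ) * Real.log 2) ^ 3 ≤ Real.log T ^ 3 := pow_le_pow_left₀ hjl0 hjl 3
  have hV : |∑ p ∈ PR T, Real.log p * VT (g := g) b w β p a| ≤
      1 / 4 * (Real.sqrt T * Real.log T ^ 3 * (T : ℝ) ^ κ) := by
    by_contra hcon
    push Not at hcon
    apply hv1
    rw [Finset.mem_biUnion]
    refine ⟨β, Finset.mem_univ _, Finset.mem_filter.2 ⟨ha, ?_⟩⟩
    have h0 : 0 ≤ Real.sqrt T * Real.log T ^ 3 := by positivity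
    have h1 : (1 / 4 * la κ j) * (Real.sqrt T * Real.log T ^ 3) <
        |∑ p ∈ PR T, Real.log p * VT (g := g) b w β p a| := by
      refine lt_of_le_of_lt ?_ hcon
      calc (1 / 4 * la κ j) * (Real.sqrt T * Real.log T ^ 3) =
          1 / 4 * (Real.sqrt T * Real.log T ^ 3 * la κ j) := by ring
        _ ≤ _ := by
          apply mul_le_mul_of_nonneg_left _ (by norm_num)
          exact mul_le_mul_of_nonneg_left hla h0
    have h2 := exceedL (by positivity : 0 ≤ 1 / 4 * la κ j) hT hTK h1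
    rw [← hj, mul_pow] at h2
    exact h2
  have hE : ∑ p ∈ PR T, Real.log p * ET (g := g) b p a ≤
      e0 g * (Real.sqrt T * Real.log T ^ 3 * (T : ℝ) ^ κ) := by
    have h1 : PS (ET (g := g) b) K j a ≤
        (e0 g * la κ j) * (Real.sqrt (2 ^ j) * ((j : ℝ) * Real.log 2) ^ 3) := by
      by_contra hcon
      push Not at hcon
      exact hv2 (Finset.mem_filter.2 ⟨ha, hcon⟩)
    have h2 := le_PS (y := ET (g := g) b) (ET_nonneg b) hTK a
    rw [← hj] at h2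
    refine h2.trans (h1.trans ?_)
    rw [mul_assoc]
    apply mul_le_mul_of_nonneg_left _ (e0_pos g).le
    rw [mul_comm (la κ j)]
    apply mul_le_mul _ hla hlap.le (by positivity)
    exact mul_le_mul (Real.sqrt_le_sqrt h2j) hjl3 (by positivity) (Real.sqrt_nonneg _)
  have hY : ∑ p ∈ PR T, Real.log p * YT (g := g) b β p a ≤ T * Real.log T ^ 3 * (T : ℝ) ^ κ := by
    have h1 : PS (YT (g := g) b β) K j a ≤ la κ j * (2 ^ j * ((j : ℝ) * Real.log 2) ^ 3) := by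
      by_contra hcon
      push Not at hcon
      apply hv3
      rw [Finset.mem_biUnion]
      exact ⟨β, Finset.mem_univ _, Finset.mem_filter.2 ⟨ha, hcon⟩⟩
    have h2 := le_PS (y := YT (g := g) b β) (YT_nonneg b β) hTK a
    rw [← hj] at h2
    refine h2.trans (h1.trans ?_)
    rw [mul_comm (la κ j)]
    apply mul_le_mul _ hla hlap.le (by positivity)
    exact mul_le_mul h2j hjl3 (by positivity) hT0.le
  have hBd0 : 0 ≤ ∑ p ∈ PR T, Real.log p * BT (g := g) b p a := by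
    apply Finset.sum_nonneg
    intro p hp
    have hpp : p.Prime := (Finset.mem_filter.1 hp).2
    exact mul_nonneg (Real.log_nonneg (by exact_mod_cast hpp.one_le)) (BT_nonneg b p a)
  have hlB2 : Real.log B ≤ 2 * Real.log T := by
    have h1 : (B : ℝ) ≤ (T : ℝ) ^ 2 := by exact_mod_cast hBT.le
    have h2 := Real.log_le_log hB0 h1
    rw [Real.log_pow] at h2
    push_cast at h2
    exact h2
  have hcL : 32 * CBd g d ≤ Real.log T ^ 2 := by
    have h1 : Real.log B ^ 2 ≤ (2 * Real.log T) ^ 2 := pow_le_pow_left₀ hlB hlB2 2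
    nlinarith
  exact (sum_tt b hw β T a).trans (final_realK hs1 hs2 hlT hu1 CBd_nonneg hV Ce_nonneg hE (Ce_e0 g)
    hBd0 hbad hlB2 hY hcL)

end Level

section Long

variable {R : Type} [CommRing R] {k d : ℕ} {g : Fin k → ℕ}

/-- The constant. -/
noncomputable def CLK (g : Fin k → ℕ) (d : ℕ) : ℝ :=
  8 * (8 ^ Fintype.card (Idx g × Fin d) * cA g d) + 2 * CBd g d

lemma CLK_nonneg (g : Fin k → ℕ) (d : ℕ) : 0 ≤ CLK g d := by
  unfold CLK
  have h1 := cA_nonneg g d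
  have h2 := CBd_nonneg (g := g) (d := d)
  positivity

open Classical in
/-- The long range. -/
theorem longK (b : Module.Basis (Fin d) ℤ R) (hg : ∀ i, 1 ≤ g i) (i₀ : Fin k) :
    ∃ B₀ : ℕ, ∀ w : ∀ p : ℕ, (R →+* ZMod p) → ℝ, (∀ p φ, |w p φ| ≤ 1) →
      ∀ κ : ℝ, 0 ≤ κ → κ ≤ 1 / 2 → ∀ T₀ B : ℕ, 2 ≤ T₀ → T₀ ≤ B → B₀ ≤ B →
      (((bx (Idx g × Fin d) B).filter fun a => ∃ T : ℕ, T₀ ≤ T ∧ B < T ^ 2 ∧
        (∀ i, T ^ 9 ≤ B ^ (2 * g i)) ∧ ∃ β : Bs k, Real.sqrt T * Real.log T ^ 3 * (T : ℝ) ^ κ <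
          |∑ p ∈ PR T, Real.log p * tt b w β p a|).card : ℝ) ≤
      CLK g d / ((T₀ : ℝ) ^ κ * Real.log T₀) * (bx (Idx g × Fin d) B).card := by
  obtain ⟨B1, hB1⟩ := bad_primes (g := g) b
  obtain ⟨c, hc⟩ := exists_c b
  obtain ⟨W, hW'⟩ : ∃ W : ℕ, W = (∑ l, |c l|).toNat := ⟨_, rfl⟩
  have hW : ∑ l, |c l| ≤ (W : ℤ) := by rw [hW']; exact Int.self_le_toNat _
  refine ⟨B1 + ∑ i, ((2 * g i + 3) * W) ^ (9 * mp (g i)) + 2 +
    ⌈Real.exp (Real.sqrt (128 * CBd g d))⌉₊, fun w hw κ hκ hκ1 T₀ B hT₀ hT₀B hB => ?_⟩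
  have hBB1 : B1 ≤ B := by omega
  have hB2 : 2 ≤ B := by omega
  have hB1' : 1 ≤ B := by omega
  have hκB : ∀ i, ((2 * g i + 3) * W) ^ (9 * mp (g i)) ≤ B := by
    intro i
    have := Finset.single_le_sum (f := fun i => ((2 * g i + 3) * W) ^ (9 * mp (g i)))
      (fun i _ => Nat.zero_le _) (Finset.mem_univ i)
    omega
  have hBR : (2 : ℝ) ≤ B := by exact_mod_cast hB2
  have hlB0 : 0 ≤ Real.log B := Real.log_nonneg (by linarith)
  have hCBd := CBd_nonneg (g := g) (d := d)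
  have hL : 128 * CBd g d ≤ Real.log B ^ 2 := by
    have h1 : Real.exp (Real.sqrt (128 * CBd g d)) ≤ B := by
      refine (Nat.le_ceil _).trans ?_
      exact_mod_cast (by omega : ⌈Real.exp (Real.sqrt (128 * CBd g d))⌉₊ ≤ B)
    have h2 : Real.sqrt (128 * CBd g d) ≤ Real.log B := by
      rw [Real.le_log_iff_exp_le (by linarith)]
      exact h1
    have h3 := pow_le_pow_left₀ (Real.sqrt_nonneg _) h2 2
    rwa [Real.sq_sqrt (by positivity)] at h3
  have hT0 : (2 : ℝ) ≤ T₀ := by exact_mod_cast hT₀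
  have hlT : 0 < Real.log T₀ := Real.log_pos (by linarith)
  have hTκ : 0 < (T₀ : ℝ) ^ κ := Real.rpow_pos_of_pos (by linarith) _
  have hCL := CLK_nonneg g d
  obtain ⟨K, hK1, hK2, hK3⟩ := exists_K g i₀ hB1'
  obtain ⟨H, hH1, hHd⟩ : ∃ H : ℕ, 1 ≤ H ∧ ∀ p, p.Prime → p ≤ K → p ∣ H :=
    ⟨Nat.factorial K, Nat.factorial_pos K, fun p hp hpK => Nat.dvd_factorial hp.pos hpK⟩
  obtain ⟨M, hM⟩ : ∃ M : ℕ, M = 8 * B * H := ⟨_, rfl⟩
  have hM0 : 0 < M := by rw [hM]; positivity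
  have : NeZero M := ⟨hM0.ne'⟩
  have hdvd : ∀ p, p.Prime → p ≤ K → p ∣ M := by
    intro p hp hpK
    rw [hM]
    exact Dvd.dvd.mul_left (hHd p hp hpK) _
  have hA : ∀ i N, 1 ≤ N → N ≤ K ^ 4 → ∃ 𝒢 : Finset ℤ[X], 𝒢.card ^ 4 ≤ Cp (g i) ^ 4 * N ∧
      Adm (2 * g i + 2) M (H * W) (mp (g i)) 𝒢 N :=
    fun i N h1 h2 => adm_exists (hg i) (hK2 i) hB1' (hκB i) hH1 hM h1 h2
  have hj1 : 1 ≤ Nat.log 2 T₀ := Nat.log_pos (by norm_num) hT₀
  have hsub : ((bx (Idx g × Fin d) B).filter fun a => ∃ T : ℕ, T₀ ≤ T ∧ B < T ^ 2 ∧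
        (∀ i, T ^ 9 ≤ B ^ (2 * g i)) ∧ ∃ β : Bs k, Real.sqrt T * Real.log T ^ 3 * (T : ℝ) ^ κ <
          |∑ p ∈ PR T, Real.log p * tt b w β p a|) ⊆
      ((bx (Idx g × Fin d) B).filter fun a => ¬ ∀ i, ND b i a ≠ 0) ∪
        (Icc (Nat.log 2 T₀) (Nat.log 2 K)).biUnion fun j => LVK (g := g) b w κ B K j := by
    intro a ha
    obtain ⟨ha1, T, h1, h2, h3, β, h4⟩ := Finset.mem_filter.1 ha
    rw [Finset.mem_union]
    by_contra hcon
    rw [not_or] at hcon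
    obtain ⟨hc1, hc2⟩ := hcon
    have hND : ∀ i, ND b i a ≠ 0 := by
      by_contra h5
      exact hc1 (Finset.mem_filter.2 ⟨ha1, h5⟩)
    have hTK' : T ≤ K := hK3 T h3
    have hlv : a ∉ LVK (g := g) b w κ B K (Nat.log 2 T) := by
      intro h5
      apply hc2
      rw [Finset.mem_biUnion]
      refine ⟨Nat.log 2 T, ?_, h5⟩
      rw [Finset.mem_Icc]
      exact ⟨Nat.log_mono_right h1, Nat.log_mono_right hTK'⟩
    have h6 := good_ofK b hκ hw (hT₀.trans h1) hTK' ha1 hlv (hB1 B hBB1 a ha1 hND T) h2 hB1' hL β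
    exact absurd h4 (not_lt.2 h6)
  have h1 : (((bx (Idx g × Fin d) B).filter fun a => ∃ T : ℕ, T₀ ≤ T ∧ B < T ^ 2 ∧
        (∀ i, T ^ 9 ≤ B ^ (2 * g i)) ∧ ∃ β : Bs k, Real.sqrt T * Real.log T ^ 3 * (T : ℝ) ^ κ <
          |∑ p ∈ PR T, Real.log p * tt b w β p a|).card : ℝ) ≤
      (((bx (Idx g × Fin d) B).filter fun a => ¬ ∀ i, ND b i a ≠ 0).card : ℝ) +
        ∑ j ∈ Icc (Nat.log 2 T₀) (Nat.log 2 K), ((LVK (g := g) b w κ B K j).card : ℝ) := by
    have h2 := (Finset.card_le_card hsub).trans (Finset.card_union_le _ _)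
    have h3 := h2.trans (add_le_add le_rfl Finset.card_biUnion_le)
    exact_mod_cast h3
  refine h1.trans ?_
  obtain ⟨X, hX⟩ : ∃ X : ℝ, X = ((bx (Idx g × Fin d) B).card : ℝ) := ⟨_, rfl⟩
  have hX0 : 0 ≤ X := by rw [hX]; exact Nat.cast_nonneg _
  have hAA : AA (Idx g × Fin d) B = 8 ^ Fintype.card (Idx g × Fin d) * X := by rw [hX]; rfl
  have hcA := cA_nonneg g d
  have hE0 : 0 ≤ AA (Idx g × Fin d) B * cA g d := by
    have := AA_nonneg (Idx g × Fin d) B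
    positivity
  have h2 : ∑ j ∈ Icc (Nat.log 2 T₀) (Nat.log 2 K), ((LVK (g := g) b w κ B K j).card : ℝ) ≤
      8 * (8 ^ Fintype.card (Idx g × Fin d) * cA g d) / ((T₀ : ℝ) ^ κ * Real.log T₀) * X := by
    refine (sum_levels hκ (by linarith) hT₀ hE0 fun j hj =>
      card_LVK b hc hW hA hM hB1' hH1 hdvd hκ hw (hj1.trans (Finset.mem_Icc.1 hj).1)).trans
      (le_of_eq ?_)
    rw [hAA]
    ring
  have h3 : (((bx (Idx g × Fin d) B).filter fun a => ¬ ∀ i, ND b i a ≠ 0).card : ℝ) ≤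
      2 * CBd g d / ((T₀ : ℝ) ^ κ * Real.log T₀) * X := by
    have h4 := rare (g := g) b B hB1'
    rw [← hX] at h4
    refine h4.trans ?_
    apply mul_le_mul_of_nonneg_right _ hX0
    have hB0 : (0 : ℝ) < B := by linarith
    have hs0 : 0 < Real.sqrt B := Real.sqrt_pos.2 hB0
    rw [div_le_div_iff₀ hB0 (by positivity)]
    have h5 : (T₀ : ℝ) ^ κ ≤ Real.sqrt B := by
      calc (T₀ : ℝ) ^ κ ≤ (T₀ : ℝ) ^ (1 / 2 : ℝ) :=
            Real.rpow_le_rpow_of_exponent_le (by linarith) hκ1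
        _ ≤ (B : ℝ) ^ (1 / 2 : ℝ) :=
            Real.rpow_le_rpow (by linarith) (by exact_mod_cast hT₀B) (by norm_num)
        _ = Real.sqrt B := (Real.sqrt_eq_rpow _).symm
    have h6 : Real.log T₀ ≤ 2 * Real.sqrt B := by
      have h7 : Real.log T₀ ≤ Real.log B := Real.log_le_log (by linarith) (by exact_mod_cast hT₀B)
      have h8 : Real.log (Real.sqrt B) ≤ Real.sqrt B := (Real.log_le_sub_one_of_pos hs0).trans (by linarith)
      rw [Real.log_sqrt hB0.le] at h8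
      linarith
    have h7 : (T₀ : ℝ) ^ κ * Real.log T₀ ≤ Real.sqrt B * (2 * Real.sqrt B) :=
      mul_le_mul h5 h6 hlT.le hs0.le
    have h8 : Real.sqrt B * (2 * Real.sqrt B) = 2 * B := by
      have := Real.mul_self_sqrt hB0.le
      linarith
    calc CBd g d * ((T₀ : ℝ) ^ κ * Real.log T₀) ≤ CBd g d * (2 * B) :=
          mul_le_mul_of_nonneg_left (h7.trans (le_of_eq h8)) hCBd
      _ = _ := by ring
  refine (add_le_add h3 h2).trans (le_of_eq ?_)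
  rw [← hX]
  unfold CLK
  ring

/-- The range. -/
def InR (g : Fin k → ℕ) (B T : ℕ) : Prop := T ^ 2 ≤ B ∨ ∀ i, T ^ 9 ≤ B ^ (2 * g i)

open Classical in
/-- Both ranges. -/
theorem mainLK (b : Module.Basis (Fin d) ℤ R) (hg : ∀ i, 1 ≤ g i) :
    ∃ B₀ : ℕ, ∀ w : ∀ p : ℕ, (R →+* ZMod p) → ℝ, (∀ p φ, |w p φ| ≤ 1) →
      ∀ κ : ℝ, 0 ≤ κ → κ ≤ 1 / 2 → ∀ T₀ B : ℕ, 2 ≤ T₀ → T₀ ≤ B → B₀ ≤ B →
      (((box g d B).filter fun a => ∃ T : ℕ, T₀ ≤ T ∧ InR g B T ∧ ∃ m n : Fin k → ℕ,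
        (∑ i, ((m i : ℝ) + n i)) ^ 2 * ((T : ℝ) ^ κ * (Real.log T ^ 3 / Real.sqrt T)) <
          |average w T g m n (pol b a) - rk m n * primeAverage w T|).card : ℝ) ≤
      (CUK g d + CLK g d) / ((T₀ : ℝ) ^ κ * Real.log T₀) * (box g d B).card := by
  by_cases hk : k = 0
  · refine ⟨0, fun w hw κ hκ hκ1 T₀ B hT₀ _ _ => ?_⟩
    have hT0 : (2 : ℝ) ≤ T₀ := by exact_mod_cast hT₀
    have hlT : 0 < Real.log T₀ := Real.log_pos (by linarith)
    have h1 := CUK_nonneg (g := g) (d := d)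
    have h2 := CLK_nonneg g d
    subst hk
    rw [Finset.filter_eq_empty_iff.2]
    · rw [Finset.card_empty, Nat.cast_zero]
      positivity
    · rintro a _ ⟨T, _, _, m, n, h3⟩
      have h4 := average_le m n b (w := w) (T := T) (a := a)
        (E := ∑ β, |DB b w T a β|) fun β =>
          Finset.single_le_sum (f := fun β => |DB b w T a β|) (fun _ _ => abs_nonneg _)
            (Finset.mem_univ β)
      simp only [Finset.univ_eq_empty, Finset.sum_empty, ne_eq, OfNat.ofNat_ne_zero,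
        not_false_eq_true, zero_pow, zero_mul] at h3 h4
      exact absurd h3 (not_lt.2 h4)
  have hk0 : 0 < k := Nat.pos_of_ne_zero hk
  obtain ⟨B₀, hB₀⟩ := longK b hg ⟨0, hk0⟩
  refine ⟨B₀, fun w hw κ hκ hκ1 T₀ B hT₀ hT₀B hB => ?_⟩
  have hs := mainK b hg hw hκ (by linarith : κ ≤ 1) T₀ B hT₀
  have hl := hB₀ w hw κ hκ hκ1 T₀ B hT₀ hT₀B hB
  have hsub : ((box g d B).filter fun a => ∃ T : ℕ, T₀ ≤ T ∧ InR g B T ∧ ∃ m n : Fin k → ℕ,
      (∑ i, ((m i : ℝ) + n i)) ^ 2 * ((T : ℝ) ^ κ * (Real.log T ^ 3 / Real.sqrt T)) <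
        |average w T g m n (pol b a) - rk m n * primeAverage w T|) ⊆
      ((box g d B).filter fun a => ∃ T : ℕ, T₀ ≤ T ∧ T ^ 2 ≤ B ∧ ∃ m n : Fin k → ℕ,
        (∑ i, ((m i : ℝ) + n i)) ^ 2 * ((T : ℝ) ^ κ * (Real.log T ^ 3 / Real.sqrt T)) <
        |average w T g m n (pol b a) - rk m n * primeAverage w T|) ∪
      ((bx (Idx g × Fin d) B).filter fun a => ∃ T : ℕ, T₀ ≤ T ∧ B < T ^ 2 ∧
        (∀ i, T ^ 9 ≤ B ^ (2 * g i)) ∧ ∃ β : Bs k, Real.sqrt T * Real.log T ^ 3 * (T : ℝ) ^ κ <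
          |∑ p ∈ PR T, Real.log p * tt b w β p a|) := by
    intro a ha
    obtain ⟨ha1, T, h1, h2, m, n, h3⟩ := Finset.mem_filter.1 ha
    rw [Finset.mem_union]
    by_cases h4 : T ^ 2 ≤ B
    · left
      exact Finset.mem_filter.2 ⟨ha1, T, h1, h4, m, n, h3⟩
    · right
      have h5 : ∀ i, T ^ 9 ≤ B ^ (2 * g i) := by
        rcases h2 with h2 | h2
        · exact absurd h2 h4
        · exact h2
      refine Finset.mem_filter.2 ⟨ha1, T, h1, not_le.1 h4, h5, ?_⟩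
      by_contra hcon
      push Not at hcon
      have hT2 : 2 ≤ T := hT₀.trans h1
      have hTp : (0 : ℝ) < T := by exact_mod_cast (by omega : 0 < T)
      have hs0 : 0 < Real.sqrt T := Real.sqrt_pos.2 hTp
      have h6 : ∀ β, |DB b w T a β| ≤ (T : ℝ) ^ κ * (Real.log T ^ 3 / Real.sqrt T) := by
        intro β
        unfold DB
        rw [abs_div, abs_of_pos hTp, ← mul_div_assoc, div_le_div_iff₀ hTp hs0]
        calc |∑ p ∈ PR T, Real.log p * tt b w β p a| * Real.sqrt T ≤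
            Real.sqrt T * Real.log T ^ 3 * (T : ℝ) ^ κ * Real.sqrt T :=
              mul_le_mul_of_nonneg_right (hcon β) hs0.le
          _ = (T : ℝ) ^ κ * Real.log T ^ 3 * (Real.sqrt T * Real.sqrt T) := by ring
          _ = _ := by rw [Real.mul_self_sqrt hTp.le]
      exact absurd h3 (not_lt.2 (average_le m n b h6))
  have h1 := (Finset.card_le_card hsub).trans (Finset.card_union_le _ _)
  have h2 : (((box g d B).filter fun a => ∃ T : ℕ, T₀ ≤ T ∧ InR g B T ∧ ∃ m n : Fin k → ℕ,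
      (∑ i, ((m i : ℝ) + n i)) ^ 2 * ((T : ℝ) ^ κ * (Real.log T ^ 3 / Real.sqrt T)) <
        |average w T g m n (pol b a) - rk m n * primeAverage w T|).card : ℝ) ≤
      (((box g d B).filter fun a => ∃ T : ℕ, T₀ ≤ T ∧ T ^ 2 ≤ B ∧ ∃ m n : Fin k → ℕ,
        (∑ i, ((m i : ℝ) + n i)) ^ 2 * ((T : ℝ) ^ κ * (Real.log T ^ 3 / Real.sqrt T)) <
        |average w T g m n (pol b a) - rk m n * primeAverage w T|).card : ℝ) +
      (((bx (Idx g × Fin d) B).filter fun a => ∃ T : ℕ, T₀ ≤ T ∧ B < T ^ 2 ∧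
        (∀ i, T ^ 9 ≤ B ^ (2 * g i)) ∧ ∃ β : Bs k, Real.sqrt T * Real.log T ^ 3 * (T : ℝ) ^ κ <
          |∑ p ∈ PR T, Real.log p * tt b w β p a|).card : ℝ) := by
    exact_mod_cast h1
  refine h2.trans ((add_le_add hs hl).trans (le_of_eq ?_))
  have h3 : bx (Idx g × Fin d) B = box g d B := rfl
  rw [h3]
  ring

end Long

end Pool.Agent.LRP
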