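import Mathlib

/-!
Stepanov's bound for the sum of the quadratic character over the values of a squarefree polynomial, over
every finite field of odd characteristic, with a constant that depends on the degree only.
-/

set_option autoImplicit false

namespace Pool.Agent.LRP

open Polynomial Finset

section Stepanov

variable {F : Type*} [Field F]

theorem pow_dvd_hasseDeriv (f : F[X]) : ∀ (N k : ℕ) (g : F[X]),
    f ^ (N - k) ∣ hasseDeriv k (f ^ N * g)
  | 0, k, g => by simp
  | N + 1, k, g => by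
    have h1 : f ^ (N + 1) * g = f * (f ^ N * g) := by ring
    rw [h1, hasseDeriv_mul]
    refine Finset.dvd_sum fun ij hij => ?_
    rw [HasAntidiagonal.mem_antidiagonal] at hij
    rcases Nat.eq_zero_or_pos ij.1 with h0 | h0
    · have h2 : ij.2 = k := by omega
      rw [h0, h2, hasseDeriv_zero']
      refine dvd_trans (pow_dvd_pow f (show N + 1 - k ≤ (N - k) + 1 by omega)) ?_
      rw [pow_succ']
      exact mul_dvd_mul_left _ (pow_dvd_hasseDeriv f N k g)
    · refine dvd_mul_of_dvd_right (dvd_trans (pow_dvd_pow f ?_) (pow_dvd_hasseDeriv f N ij.2 g)) _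
      omega

/-- The linear maps `B k` with `f ^ k * hasseDeriv k (s * f ^ h) = f ^ h * B k s`. -/
theorem exists_quot (f : F[X]) (hf : f ≠ 0) (h l : ℕ) (hl : l ≤ h + 1) :
    ∃ B : ℕ → F[X] →ₗ[F] F[X], ∀ k < l, ∀ s : F[X],
      f ^ k * hasseDeriv k (s * f ^ h) = f ^ h * B k s ∧
      (B k s).natDegree ≤ k * f.natDegree + s.natDegree := by
  have hc : ∀ j, ∃ c : F[X], hasseDeriv j (f ^ h) = f ^ (h - j) * c := by
    intro j
    have := pow_dvd_hasseDeriv f h j 1
    rw [mul_one] at this
    exact this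
  choose c hc using hc
  have hcd : ∀ j ≤ h, (c j).natDegree ≤ j * f.natDegree := by
    intro j hj
    rcases eq_or_ne (c j) 0 with h0 | h0
    · rw [h0]; simp
    · have h1 := congrArg natDegree (hc j)
      rw [natDegree_mul (pow_ne_zero _ hf) h0, natDegree_pow] at h1
      have h2 := natDegree_hasseDeriv_le (f ^ h) j
      rw [natDegree_pow] at h2
      have h3 : h * f.natDegree = (h - j) * f.natDegree + j * f.natDegree := by
        rw [← add_mul, Nat.sub_add_cancel hj]
      omega
  refine ⟨fun k => ∑ ij ∈ antidiagonal k, (LinearMap.mulLeft F (f ^ ij.1 * c ij.2)).comp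
    (hasseDeriv ij.1), fun k hk s => ⟨?_, ?_⟩⟩
  · rw [hasseDeriv_mul, Finset.mul_sum, LinearMap.sum_apply, Finset.mul_sum]
    refine Finset.sum_congr rfl fun ij hij => ?_
    rw [HasAntidiagonal.mem_antidiagonal] at hij
    rw [LinearMap.comp_apply, LinearMap.mulLeft_apply, hc ij.2]
    have h1 : f ^ k = f ^ ij.1 * f ^ ij.2 := by rw [← pow_add, hij]
    have h2 : f ^ h = f ^ ij.2 * f ^ (h - ij.2) := by
      rw [← pow_add]; congr 1; omega
    rw [h1, h2]
    ring
  · rw [LinearMap.sum_apply]
    refine natDegree_sum_le_of_forall_le _ _ fun ij hij => ?_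
    rw [HasAntidiagonal.mem_antidiagonal] at hij
    rw [LinearMap.comp_apply, LinearMap.mulLeft_apply]
    refine natDegree_mul_le.trans ?_
    refine (Nat.add_le_add (natDegree_mul_le.trans (Nat.add_le_add natDegree_pow_le
      (hcd ij.2 (by omega)))) ((natDegree_hasseDeriv_le s ij.1).trans (Nat.sub_le _ _))).trans ?_
    rw [← hij, add_mul]

/-- A nonzero solution of the linear conditions. -/
theorem exists_solution (f : F[X]) (a : F) (D J l n : ℕ) (B : ℕ → F[X] →ₗ[F] F[X])
    (hcount : l * n < 2 * (J * D)) :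
    ∃ r s : ℕ → F[X], (∀ j, r j ∈ degreeLT F D) ∧ (∀ j, s j ∈ degreeLT F D) ∧
      (∃ j < J, r j ≠ 0 ∨ s j ≠ 0) ∧ ∀ k < l, ∀ i < n,
        (∑ j ∈ range J, X ^ j * (f ^ k * hasseDeriv k (r j) + C a * B k (s j))).coeff i = 0 := by
  let L : (Fin J → degreeLT F D) × (Fin J → degreeLT F D) →ₗ[F] (Fin l → Fin n → F) :=
    { toFun := fun v k i => (∑ j : Fin J, X ^ (j : ℕ) * (f ^ (k : ℕ) * hasseDeriv k (v.1 j : F[X]) +
        C a * B k (v.2 j : F[X]))).coeff i
      map_add' := by
        intro v w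
        funext k i
        rw [Pi.add_apply, Pi.add_apply, ← coeff_add, ← Finset.sum_add_distrib]
        congr 1
        refine Finset.sum_congr rfl fun j _ => ?_
        simp only [Prod.fst_add, Prod.snd_add, Pi.add_apply, Submodule.coe_add, map_add]
        ring
      map_smul' := by
        intro t v
        funext k i
        simp only [Pi.smul_apply, RingHom.id_apply]
        rw [← coeff_smul, Finset.smul_sum]
        congr 1
        refine Finset.sum_congr rfl fun j _ => ?_
        simp only [Prod.smul_fst, Prod.smul_snd, Pi.smul_apply, Submodule.coe_smul, map_smul]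
        simp only [smul_eq_C_mul]
        ring }
  have hfin : Module.finrank F (degreeLT F D) = D := by
    rw [Module.finrank_eq_card_basis (degreeLT.basis F D), Fintype.card_fin]
  have hfr : Module.finrank F (Fin l → Fin n → F) <
      Module.finrank F ((Fin J → degreeLT F D) × (Fin J → degreeLT F D)) := by
    have h1 : Module.finrank F (Fin J → degreeLT F D) = J * D := by
      rw [Module.finrank_pi_fintype]
      simp only [hfin, Finset.sum_const, Finset.card_univ, Fintype.card_fin, smul_eq_mul]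
    have h2 : Module.finrank F (Fin l → Fin n → F) = l * n := by
      rw [Module.finrank_pi_fintype]
      simp only [Module.finrank_pi, Finset.sum_const, Finset.card_univ, Fintype.card_fin, smul_eq_mul]
    rw [Module.finrank_prod, h1, h2]
    omega
  obtain ⟨v, hv, hv0⟩ := Submodule.exists_mem_ne_zero_of_ne_bot (L.ker_ne_bot_of_finrank_lt hfr)
  rw [LinearMap.mem_ker] at hv
  refine ⟨fun j => if hj : j < J then (v.1 ⟨j, hj⟩ : F[X]) else 0,
    fun j => if hj : j < J then (v.2 ⟨j, hj⟩ : F[X]) else 0, ?_, ?_, ?_, ?_⟩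
  · intro j
    dsimp only
    split_ifs with hj
    · exact (v.1 ⟨j, hj⟩).2
    · exact Submodule.zero_mem _
  · intro j
    dsimp only
    split_ifs with hj
    · exact (v.2 ⟨j, hj⟩).2
    · exact Submodule.zero_mem _
  · by_contra hcon
    push Not at hcon
    apply hv0
    refine Prod.ext (funext fun j => ?_) (funext fun j => ?_)
    · have := (hcon j j.2).1
      rw [dif_pos j.2] at this
      exact Subtype.ext this
    · have := (hcon j j.2).2
      rw [dif_pos j.2] at this
      exact Subtype.ext this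
  · intro k hk i hi
    have h1 := congrFun (congrFun hv ⟨k, hk⟩) ⟨i, hi⟩
    rw [Finset.sum_range]
    simp only [Fin.is_lt, dite_true, Fin.eta]
    exact h1

theorem descent (f : F[X]) (hf : Squarefree f) (h1 : 1 ≤ f.natDegree) (c : F) (hc : c ≠ 0) :
    ∀ (n : ℕ) (r s : F[X]), r.natDegree < n → r ^ 2 * f = C c * s ^ 2 → r = 0
  | 0, r, s, h, _ => absurd h (Nat.not_lt_zero _)
  | n + 1, r, s, h, e => by
    have hf0 : f ≠ 0 := hf.ne_zero
    have hu : IsUnit (C c : F[X]) := isUnit_C.2 (isUnit_iff_ne_zero.2 hc)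
    by_contra hr
    have h2 : f ∣ s ^ 2 := by
      rw [← hu.dvd_mul_left, ← e]
      exact dvd_mul_left _ _
    obtain ⟨t, rfl⟩ := (hf.dvd_pow_iff_dvd two_ne_zero).1 h2
    have h3 : r ^ 2 = f * (C c * t ^ 2) := by
      apply mul_right_cancel₀ hf0
      rw [e]; ring
    have h4 : f ∣ r ^ 2 := ⟨_, h3⟩
    obtain ⟨u, rfl⟩ := (hf.dvd_pow_iff_dvd two_ne_zero).1 h4
    have h5 : u ^ 2 * f = C c * t ^ 2 := by
      apply mul_left_cancel₀ hf0
      rw [← h3]; ring
    have hu0 : u ≠ 0 := fun h => hr (by rw [h, mul_zero])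
    rw [natDegree_mul hf0 hu0] at h
    exact hu0 (descent f hf h1 c hc n u t (by omega) h5)

theorem natDegree_lt_of_mem {D : ℕ} (hD : 0 < D) {r : F[X]} (hr : r ∈ degreeLT F D) :
    r.natDegree < D := by
  rcases eq_or_ne r 0 with h | h
  · rw [h]; simpa using hD
  · rw [mem_degreeLT, degree_eq_natDegree h] at hr
    exact_mod_cast hr

/-- Nonvanishing of the lowest term. -/
theorem lowest_ne [Fintype F] (f : F[X]) (hf : Squarefree f) (h1 : 1 ≤ f.natDegree) (h D : ℕ)
    (hq : Fintype.card F = 2 * h + 1) (hD0 : 0 < D) (hD : 2 * D + f.natDegree ≤ Fintype.card F)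
    (r s : F[X]) (hr : r ∈ degreeLT F D) (hs : s ∈ degreeLT F D) (hne : r ≠ 0 ∨ s ≠ 0) :
    ¬ X ^ Fintype.card F ∣ r + s * f ^ h := by
  intro hdvd
  have hrd := natDegree_lt_of_mem hD0 hr
  have hsd := natDegree_lt_of_mem hD0 hs
  have h2 : X ^ Fintype.card F ∣ r ^ 2 * f - s ^ 2 * f ^ Fintype.card F := by
    have : r ^ 2 * f - s ^ 2 * f ^ Fintype.card F = (r + s * f ^ h) * ((r - s * f ^ h) * f) := by
      rw [hq]; ring
    rw [this]
    exact dvd_mul_of_dvd_left hdvd _
  have h3 : X ^ Fintype.card F ∣ f ^ Fintype.card F - C (f.coeff 0) := by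
    obtain ⟨g, hg⟩ := X_dvd_iff.2 (show (f - C (f.coeff 0)).coeff 0 = 0 by simp)
    rw [← FiniteField.expand_card f]
    refine ⟨expand F (Fintype.card F) g, ?_⟩
    have := congrArg (expand F (Fintype.card F)) hg
    rw [map_sub, expand_C, map_mul, expand_X] at this
    exact this
  have h4 : X ^ Fintype.card F ∣ r ^ 2 * f - C (f.coeff 0) * s ^ 2 := by
    have : r ^ 2 * f - C (f.coeff 0) * s ^ 2 = (r ^ 2 * f - s ^ 2 * f ^ Fintype.card F) +
      (f ^ Fintype.card F - C (f.coeff 0)) * s ^ 2 := by ring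
    rw [this]
    exact dvd_add h2 (dvd_mul_of_dvd_left h3 _)
  have h5 : r ^ 2 * f - C (f.coeff 0) * s ^ 2 = 0 := by
    refine eq_zero_of_dvd_of_natDegree_lt h4 ?_
    rw [natDegree_X_pow]
    refine lt_of_le_of_lt (natDegree_sub_le _ _) ?_
    refine max_lt ?_ ?_
    · refine lt_of_le_of_lt (natDegree_mul_le.trans (Nat.add_le_add_right natDegree_pow_le _)) ?_
      omega
    · refine lt_of_le_of_lt (natDegree_mul_le.trans (Nat.add_le_add (natDegree_C _).le
        natDegree_pow_le)) ?_
      omega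
  rcases eq_or_ne (f.coeff 0) 0 with h0 | h0
  · rw [h0, C_0, zero_mul, sub_zero, mul_eq_zero, pow_eq_zero_iff two_ne_zero] at h5
    have hr0 : r = 0 := h5.resolve_right hf.ne_zero
    have hs0 : s ≠ 0 := hne.resolve_left (fun h => h hr0)
    obtain ⟨g, rfl⟩ := X_dvd_iff.2 h0
    have hg : ¬ (X : F[X]) ∣ g := by
      rintro ⟨g', rfl⟩
      exact not_isUnit_X (hf X ⟨g', by ring⟩)
    have h6 : (X : F[X]) ^ (h + 1) ∣ s * g ^ h := by
      rw [hr0, zero_add] at hdvd
      have h7 : (X : F[X]) ^ h * X ^ (h + 1) ∣ X ^ h * (s * g ^ h) := by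
        have e1 : (X : F[X]) ^ h * X ^ (h + 1) = X ^ Fintype.card F := by
          rw [← pow_add, hq]; congr 1; ring
        have e2 : (X : F[X]) ^ h * (s * g ^ h) = s * (X * g) ^ h := by ring
        rw [e1, e2]
        exact hdvd
      exact (mul_dvd_mul_iff_left (pow_ne_zero _ X_ne_zero)).1 h7
    have h8 : (X : F[X]) ^ (h + 1) ∣ s :=
      prime_X.pow_dvd_of_dvd_mul_right _ (fun h => hg (prime_X.dvd_of_dvd_pow h)) h6
    have h9 := natDegree_le_of_dvd h8 hs0
    rw [natDegree_X_pow] at h9
    omega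
  · have h6 := descent f hf h1 _ h0 (r.natDegree + 1) r s (Nat.lt_succ_self _) (sub_eq_zero.1 h5)
    have hs0 : s ≠ 0 := hne.resolve_left (fun h => h h6)
    rw [h6] at h5
    have h7 : C (f.coeff 0) * s ^ 2 = 0 := by
      rw [← sub_eq_zero.1 h5]; ring
    rw [mul_eq_zero, C_eq_zero, pow_eq_zero_iff two_ne_zero] at h7
    exact h7.elim h0 hs0

theorem dvd_of_hasse (p : F[X]) (x : F) (l : ℕ) (h : ∀ k < l, (hasseDeriv k p).eval x = 0) :
    (X - C x) ^ l ∣ p := by
  rw [X_sub_C_pow_dvd_iff, X_pow_dvd_iff]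
  intro k hk
  rw [← h k hk, ← taylor_coeff, taylor_apply]

theorem dvd_X_pow_sub [Fintype F] (x : F) (j l : ℕ) (hl : l ≤ Fintype.card F) :
    (X - C x) ^ l ∣ (X : F[X]) ^ (Fintype.card F * j) - C (x ^ j) := by
  have h1 : (X - C x) ^ Fintype.card F = (X : F[X]) ^ Fintype.card F - C x := by
    rw [← FiniteField.expand_card (X - C x), map_sub, expand_X, expand_C]
  rw [pow_mul, C_pow]
  refine dvd_trans ?_ (sub_dvd_pow_sub_pow _ _ j)
  rw [← h1]
  exact pow_dvd_pow _ hl

/-- Counting the points where the power of `f` has a given value. -/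
theorem stepanov_count [Fintype F] (f : F[X]) (hf : Squarefree f) (h1 : 1 ≤ f.natDegree)
    (m : ℕ) (hm : f.natDegree ≤ m) (h : ℕ) (hq : Fintype.card F = 2 * h + 1) (a : F) (l : ℕ)
    (hl1 : l * l ≤ Fintype.card F) (hbig : 4 * (m + 2) ≤ l)
    (S : Finset F) (hS : ∀ x ∈ S, eval x f ≠ 0 ∧ (eval x f) ^ h = a) :
    2 * (l * S.card) ≤ Fintype.card F * l + Fintype.card F * (3 * m + 3) := by
  classical
  set q := Fintype.card F with hqdef
  set D := (q - m) / 2 with hD
  set J := l / 2 + m + 2 with hJ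
  set n := J + l * m + D with hn
  have hlq : 4 * (m + 2) * l ≤ q := le_trans (Nat.mul_le_mul_right l hbig) hl1
  have hql : l ≤ q := le_trans (Nat.le_mul_of_pos_left l (by omega)) hlq
  have hm8 : 8 * (m + 2) ≤ q := by
    refine le_trans ?_ hlq
    nlinarith
  have hD1 : q ≤ 2 * D + m + 1 := by omega
  have hD2 : 2 * D + m ≤ q := by omega
  have hD0 : 0 < D := by omega
  have hlh : l ≤ h + 1 := by
    have : 2 * l ≤ q := le_trans (Nat.mul_le_mul_right l (by omega : 2 ≤ 4 * (m + 2))) hlq
    omega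
  have hcount : l * n < 2 * (J * D) := by
    have hJ1 : 2 * J ≤ l + 2 * m + 4 := by omega
    have hJ2 : l + 2 * m + 3 ≤ 2 * J := by omega
    have e1 : (l + 2 * m + 3) * D ≤ 2 * J * D := Nat.mul_le_mul_right _ hJ2
    have e2 : l * (2 * J) ≤ l * (l + 2 * m + 4) := Nat.mul_le_mul_left _ hJ1
    have e3 : 2 * (l * J + l * l * m) < (2 * m + 3) * (2 * D) := by
      have e4 : (2 * m + 3) * q ≤ (2 * m + 3) * (2 * D) + (2 * m + 3) * (m + 1) := by
        rw [← mul_add]; exact Nat.mul_le_mul_left _ (by omega)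
      have e5 : (2 * m + 3) * (l * l) ≤ (2 * m + 3) * q := Nat.mul_le_mul_left _ hl1
      have e6 : 4 * (m + 2) * l ≤ l * l := Nat.mul_le_mul_right _ hbig
      have e7 : 4 * (m + 2) * (4 * (m + 2)) ≤ l * l := Nat.mul_le_mul hbig hbig
      nlinarith
    nlinarith
  obtain ⟨B, hB⟩ := exists_quot f hf.ne_zero h l hlh
  obtain ⟨r, s, hr, hs, hne, hZ⟩ := exists_solution f a D J l n B hcount
  have hrd : ∀ j, (r j).natDegree < D := fun j => natDegree_lt_of_mem hD0 (hr j)
  have hsd : ∀ j, (s j).natDegree < D := fun j => natDegree_lt_of_mem hD0 (hs j)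
  -- the conditions hold as identities
  have hZ0 : ∀ k < l,
      ∑ j ∈ range J, X ^ j * (f ^ k * hasseDeriv k (r j) + C a * B k (s j)) = 0 := by
    intro k hk
    have hkm : k * f.natDegree ≤ l * m := Nat.mul_le_mul hk.le hm
    have hdeg : (∑ j ∈ range J, X ^ j *
        (f ^ k * hasseDeriv k (r j) + C a * B k (s j))).natDegree < n := by
      refine lt_of_le_of_lt (natDegree_sum_le_of_forall_le (n := (J - 1) + (l * m + (D - 1)))
        _ _ fun j hj => ?_) (by omega)
      rw [mem_range] at hj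
      refine natDegree_mul_le.trans ?_
      rw [natDegree_X_pow]
      refine Nat.add_le_add (by omega) ?_
      refine (natDegree_add_le _ _).trans (max_le ?_ ?_)
      · refine natDegree_mul_le.trans ?_
        have g1 := natDegree_hasseDeriv_le (r j) k
        have g2 : (f ^ k).natDegree ≤ k * f.natDegree := natDegree_pow_le
        have g3 := hrd j
        omega
      · refine natDegree_mul_le.trans ?_
        rw [natDegree_C, zero_add]
        have g1 := (hB k hk (s j)).2
        have g3 := hsd j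
        omega
    ext i
    rw [coeff_zero]
    by_cases hi : i < n
    · exact hZ k hk i hi
    · exact coeff_eq_zero_of_natDegree_lt (by omega)
  -- the auxiliary polynomial
  set P := ∑ j ∈ range J, (r j + s j * f ^ h) * X ^ (q * j) with hP
  have hP0 : P ≠ 0 := by
    intro hP0
    have hex : ∃ j, j < J ∧ (r j ≠ 0 ∨ s j ≠ 0) := hne
    obtain ⟨hj1, hj2⟩ := Nat.find_spec hex
    set j0 := Nat.find hex with hj0
    have hlow : ∀ j < j0, j < J → r j = 0 ∧ s j = 0 := by
      intro j hj hjJ
      have := Nat.find_min hex hj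
      push Not at this
      exact this hjJ
    have hd : X ^ (q * j0) * X ^ q ∣ X ^ (q * j0) * (r j0 + s j0 * f ^ h) := by
      have e1 : P = (∑ j ∈ (range J).erase j0, (r j + s j * f ^ h) * X ^ (q * j)) +
          (r j0 + s j0 * f ^ h) * X ^ (q * j0) :=
        (Finset.sum_erase_add _ _ (mem_range.2 hj1)).symm
      have e2 : X ^ (q * j0) * (r j0 + s j0 * f ^ h) =
          -(∑ j ∈ (range J).erase j0, (r j + s j * f ^ h) * X ^ (q * j)) := by
        rw [hP0] at e1
        rw [mul_comm]
        exact eq_neg_of_add_eq_zero_right e1.symm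
      rw [e2, dvd_neg]
      refine Finset.dvd_sum fun j hj => ?_
      rw [mem_erase, mem_range] at hj
      rcases lt_or_gt_of_ne hj.1 with hlt | hgt
      · obtain ⟨g1, g2⟩ := hlow j hlt hj.2
        rw [g1, g2, zero_mul, zero_add, zero_mul]
        exact dvd_zero _
      · refine dvd_mul_of_dvd_right ?_ _
        rw [← pow_add]
        refine pow_dvd_pow _ ?_
        have : q * (j0 + 1) ≤ q * j := Nat.mul_le_mul_left _ hgt
        rw [mul_add, mul_one] at this
        exact this
    exact lowest_ne f hf h1 h D hq hD0 (by omega) _ _ (hr j0) (hs j0) hj2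
      ((mul_dvd_mul_iff_left (pow_ne_zero _ X_ne_zero)).1 hd)
  have hdvd : ∀ x ∈ S, (X - C x) ^ l ∣ P := by
    intro x hx
    obtain ⟨hx0, hxa⟩ := hS x hx
    have e1 : P = ∑ j ∈ range J, (r j + s j * f ^ h) * (X ^ (q * j) - C (x ^ j)) +
        ∑ j ∈ range J, C (x ^ j) * (r j + s j * f ^ h) := by
      rw [hP, ← Finset.sum_add_distrib]
      refine Finset.sum_congr rfl fun j _ => ?_
      ring
    rw [e1]
    refine dvd_add (Finset.dvd_sum fun j _ =>
      dvd_mul_of_dvd_right (dvd_X_pow_sub x j l hql) _) ?_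
    refine dvd_of_hasse _ _ _ fun k hk => ?_
    have hfk : (eval x f) ^ k ≠ 0 := pow_ne_zero _ hx0
    apply mul_left_cancel₀ hfk
    rw [mul_zero, map_sum, eval_finsetSum, Finset.mul_sum]
    have e2 := congrArg (eval x) (hZ0 k hk)
    rw [eval_zero, eval_finsetSum] at e2
    rw [← e2]
    refine Finset.sum_congr rfl fun j _ => ?_
    have e3 := congrArg (eval x) (hB k hk (s j)).1
    rw [eval_mul, eval_mul, eval_pow, eval_pow, hxa] at e3
    rw [← smul_eq_C_mul, map_smul, map_add, smul_eq_C_mul]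
    simp only [eval_mul, eval_add, eval_C, eval_pow, eval_X]
    rw [← e3]
    ring
  have hdeg : P.natDegree ≤ D + h * m + q * (J - 1) := by
    refine natDegree_sum_le_of_forall_le _ _ fun j hj => ?_
    rw [mem_range] at hj
    refine natDegree_mul_le.trans ?_
    rw [natDegree_X_pow]
    refine Nat.add_le_add ?_ (Nat.mul_le_mul_left _ (by omega))
    refine (natDegree_add_le _ _).trans (max_le ?_ ?_)
    · have := hrd j
      omega
    · refine natDegree_mul_le.trans ?_
      refine Nat.add_le_add (hsd j).le (natDegree_pow_le.trans (Nat.mul_le_mul_left _ hm))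
  have hcard : S.card * l ≤ P.natDegree := by
    have e1 : (∏ x ∈ S, (X - C x) ^ l) ∣ P := by
      refine Finset.prod_dvd_of_coprime ?_ hdvd
      intro x _ y _ hxy
      exact (pairwise_coprime_X_sub_C (Function.injective_id) hxy).pow
    have e2 := natDegree_le_of_dvd e1 hP0
    rw [natDegree_prod_of_monic _ _ fun x _ => (monic_X_sub_C x).pow l] at e2
    simp only [natDegree_pow, natDegree_X_sub_C, mul_one, Finset.sum_const, smul_eq_mul] at e2
    exact e2
  have hJ1 : q * (2 * J) ≤ q * (l + 2 * m + 4) := Nat.mul_le_mul_left _ (by omega)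
  have hJ3 : q * (J - 1) + q = q * J := by
    have : J - 1 + 1 = J := by omega
    rw [← Nat.mul_succ, Nat.succ_eq_add_one, this]
  have hhm : 2 * (h * m) ≤ q * m := by
    rw [hq]; nlinarith
  nlinarith

/-- Stepanov's bound with an explicit constant. -/
theorem stepanov_explicit [Fintype F] [DecidableEq F] (hF : ringChar F ≠ 2) (f : F[X])
    (hf : Squarefree f) (h1 : 1 ≤ f.natDegree) (m : ℕ) (hm : f.natDegree ≤ m) :
    |((∑ x : F, quadraticChar F (f.eval x) : ℤ) : ℝ)| ≤
      (10 * m + 10) * Real.sqrt (Fintype.card F) := by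
  set q := Fintype.card F with hqdef
  have hodd : q % 2 = 1 := FiniteField.odd_card_of_char_ne_two hF
  set h := q / 2 with hh
  have hq : q = 2 * h + 1 := by omega
  have hqpos : (1 : ℝ) ≤ q := by exact_mod_cast (by omega : 1 ≤ q)
  have hsq : Real.sqrt q * Real.sqrt q = q := Real.mul_self_sqrt (by positivity)
  have hsq1 : 1 ≤ Real.sqrt q := Real.one_le_sqrt.2 hqpos
  set l := Nat.sqrt q with hl
  have hl1 : l * l ≤ q := Nat.sqrt_le q
  have hl2 : q ≤ l * l + l + l := Nat.sqrt_le_add q
  have hlr : (l : ℝ) ≤ Real.sqrt q := by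
    rw [hl]; exact Real.nat_sqrt_le_real_sqrt
  set S1 := univ.filter fun x : F => quadraticChar F (f.eval x) = 1 with hS1
  set S2 := univ.filter fun x : F => quadraticChar F (f.eval x) = -1 with hS2
  set S0 := univ.filter fun x : F => f.eval x = 0 with hS0
  have hsum : (∑ x : F, quadraticChar F (f.eval x) : ℤ) = S1.card - S2.card := by
    have e1 : (S1.card : ℤ) = ∑ x : F, if quadraticChar F (f.eval x) = 1 then 1 else 0 := by
      rw [hS1, Finset.card_filter]; push_cast; rfl
    have e2 : (S2.card : ℤ) = ∑ x : F, if quadraticChar F (f.eval x) = -1 then 1 else 0 := by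
      rw [hS2, Finset.card_filter]; push_cast; rfl
    rw [e1, e2, ← Finset.sum_sub_distrib]
    refine Finset.sum_congr rfl fun x _ => ?_
    by_cases hx : f.eval x = 0
    · rw [hx]; simp
    · rcases quadraticChar_dichotomy hx with h | h <;> rw [h] <;> norm_num
  have htot : S1.card + S2.card + S0.card = q := by
    have e1 : (S1.card + S2.card + S0.card) = ∑ x : F, 1 := by
      rw [hS1, hS2, hS0, Finset.card_filter, Finset.card_filter, Finset.card_filter,
        ← Finset.sum_add_distrib, ← Finset.sum_add_distrib]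
      refine Finset.sum_congr rfl fun x _ => ?_
      by_cases hx : f.eval x = 0
      · rw [hx]; simp
      · rcases quadraticChar_dichotomy hx with h | h <;> rw [h] <;> norm_num [hx]
    rw [e1, Finset.sum_const, Finset.card_univ, smul_eq_mul, mul_one]
  have hS0c : S0.card ≤ m := by
    refine le_trans ?_ hm
    refine le_trans (Finset.card_le_card (t := f.roots.toFinset) ?_) ?_
    · intro x hx
      rw [hS0, mem_filter] at hx
      rw [Multiset.mem_toFinset, mem_roots hf.ne_zero]
      exact hx.2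
    · exact (Multiset.toFinset_card_le _).trans (card_roots' f)
  rw [hsum]
  push_cast
  have htotR : (S1.card : ℝ) + S2.card + S0.card = q := by exact_mod_cast htot
  have hS0R : (S0.card : ℝ) ≤ m := by exact_mod_cast hS0c
  have hm0 : (0 : ℝ) ≤ m := Nat.cast_nonneg m
  have hn1 : (0 : ℝ) ≤ S1.card := Nat.cast_nonneg _
  have hn2 : (0 : ℝ) ≤ S2.card := Nat.cast_nonneg _
  have hn0 : (0 : ℝ) ≤ S0.card := Nat.cast_nonneg _
  rcases lt_or_ge l (4 * (m + 2)) with hsmall | hbig
  · have h2 : q ≤ (4 * (m + 2)) * (4 * (m + 2)) := by nlinarith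
    have h3 : Real.sqrt q ≤ 4 * (m + 2) := by
      rw [Real.sqrt_le_left (by positivity)]
      have : (q : ℝ) ≤ (4 * (m + 2)) * (4 * (m + 2)) := by exact_mod_cast h2
      nlinarith
    have h4 : (q : ℝ) ≤ 4 * (m + 2) * Real.sqrt q := by
      calc (q : ℝ) = Real.sqrt q * Real.sqrt q := hsq.symm
        _ ≤ _ := mul_le_mul_of_nonneg_right h3 (by positivity)
    have h5 : 4 * ((m : ℝ) + 2) * Real.sqrt q ≤ (10 * m + 10) * Real.sqrt q :=
      mul_le_mul_of_nonneg_right (by linarith) (by positivity)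
    rw [abs_le]
    constructor <;> linarith
  · have hcast : ∀ x : F, ((quadraticChar F (f.eval x) : ℤ) : F) = (f.eval x) ^ h := fun x =>
      quadraticChar_eq_pow_of_char_ne_two' hF _
    have hlpos : 0 < l := by omega
    have key : ∀ S : Finset F, ∀ a : F,
        (∀ x ∈ S, eval x f ≠ 0 ∧ (eval x f) ^ h = a) →
        2 * (S.card : ℝ) - q ≤ (l + 2) * (3 * m + 3) := by
      intro S a hS
      have e1 := stepanov_count f hf h1 m hm h hq a l hl1 hbig S hS
      have e2 : (2 * (l * S.card) : ℝ) ≤ q * l + q * (3 * m + 3) := by exact_mod_cast e1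
      have e3 : (q : ℝ) ≤ l * (l + 2) := by
        have : (q : ℝ) ≤ l * l + l + l := by exact_mod_cast hl2
        linarith
      have e4 : (q : ℝ) * (3 * m + 3) ≤ l * (l + 2) * (3 * m + 3) :=
        mul_le_mul_of_nonneg_right e3 (by positivity)
      have hlp : (0 : ℝ) < l := by exact_mod_cast hlpos
      have e5 : (l : ℝ) * (2 * (S.card : ℝ) - q) ≤ l * ((l + 2) * (3 * m + 3)) := by nlinarith
      exact le_of_mul_le_mul_left e5 hlp
    have k1 := key S1 1 fun x hx => by
      rw [hS1, mem_filter] at hx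
      have e1 := hcast x
      rw [hx.2, Int.cast_one] at e1
      refine ⟨fun h0 => ?_, e1.symm⟩
      rw [h0] at hx
      simp at hx
    have k2 := key S2 (-1) fun x hx => by
      rw [hS2, mem_filter] at hx
      have e1 := hcast x
      rw [hx.2, Int.cast_neg, Int.cast_one] at e1
      refine ⟨fun h0 => ?_, e1.symm⟩
      rw [h0] at hx
      simp at hx
    have k3 : ((l : ℝ) + 2) * (3 * m + 3) + m ≤ (10 * m + 10) * Real.sqrt q := by
      have e1 : (l : ℝ) + 2 ≤ 3 * Real.sqrt q := by linarith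
      have e2 : ((l : ℝ) + 2) * (3 * m + 3) ≤ 3 * Real.sqrt q * (3 * m + 3) :=
        mul_le_mul_of_nonneg_right e1 (by positivity)
      have e3 : (m : ℝ) * 1 ≤ m * Real.sqrt q := mul_le_mul_of_nonneg_left hsq1 hm0
      nlinarith
    rw [abs_le]
    constructor <;> linarith

end Stepanov

/-- Stepanov's bound. -/
theorem stepanov (m : ℕ) : ∃ C : ℝ, 0 ≤ C ∧
    ∀ (F : Type) [Field F] [Fintype F] [DecidableEq F], ringChar F ≠ 2 →
      ∀ f : F[X], Squarefree f → 1 ≤ f.natDegree → f.natDegree ≤ m →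
        |((∑ x : F, quadraticChar F (f.eval x) : ℤ) : ℝ)| ≤ C * Real.sqrt (Fintype.card F) :=
  ⟨10 * m + 10, by positivity, fun F _ _ _ hF f hf h1 hm => stepanov_explicit hF f hf h1 m hm⟩

end Pool.Agent.LRP
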